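import Pool.Agent.J4H91.Drw.Vert

/-!
# Classification of the triangular faces
-/

set_option autoImplicit false

namespace Pool.Agent.J4H91.Drw

variable {s : ℕ → ℝ}

/-- The intersection point of the lines `ij` and `kl`. -/
noncomputable def meet (s : ℕ → ℝ) (i j k l : ℕ) : ℝ × ℝ :=
  ((s i * s j - s k * s l) / (s i + s j - s k - s l),
    (s i + s j) * ((s i * s j - s k * s l) / (s i + s j - s k - s l)) - s i * s j)

lemma meet_eq (hs : StrictMono s) {i j k l : ℕ} {z : ℝ × ℝ} (h1 : ln s i j z = 0)
    (h2 : ln s k l z = 0) (hne1 : ¬ (i = k ∧ j = l)) (hne2 : ¬ (i = l ∧ j = k)) :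
    z = meet s i j k l := by
  unfold ln at h1 h2
  have hsum : s i + s j - s k - s l ≠ 0 := by
    intro h
    have e1 : s i + s j = s k + s l := by linarith
    have e3 : s i * s j = s k * s l := by
      rw [e1] at h1
      linarith
    have e4 : (s i - s k) * (s i - s l) = 0 := by
      have : s j = s k + s l - s i := by linarith
      rw [this] at e3
      nlinarith
    rcases mul_eq_zero.mp e4 with h | h
    · have h5 : s i = s k := by linarith
      have h6 : s j = s l := by linarith
      exact hne1 ⟨hs.injective h5, hs.injective h6⟩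
    · have h5 : s i = s l := by linarith
      have h6 : s j = s k := by linarith
      exact hne2 ⟨hs.injective h5, hs.injective h6⟩
  have hz1 : z.1 = (s i * s j - s k * s l) / (s i + s j - s k - s l) := by
    rw [eq_div_iff hsum]
    linarith
  refine Prod.ext hz1 ?_
  unfold meet
  simp only
  rw [← hz1]
  linarith

/-- The triangles at the vertex `v`. -/
noncomputable def tv (s : ℕ → ℝ) (n v x : ℕ) : Set (ℝ × ℝ) :=
  oTri (Q s v) (meet s v x (pr n v) (nx n v)) (meet s v (nx n x) (pr n v) (nx n v))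

lemma seg_ne {v p q x y : ℕ} (hs : StrictMono s) {B C : ℝ × ℝ} (hvy : v ≠ y)
    (hxy : x ≠ y) (hBA : B ≠ Q s v) (hCA : C ≠ Q s v)
    (hB : ln s v y B = 0) (hC : ln s v x C = 0) (hB2 : ln s p q B = 0) (hC2 : ln s p q C = 0) :
    v ≠ p := by
  rintro rfl
  by_cases hqy : q = y
  · subst hqy
    exact hCA (line_meet hs hvy hxy hC hC2)
  · by_cases hvq : v = q
    · subst hvq
      -- degenerate pair: the tangent at `v`
      unfold ln at hB hB2 hC hC2
      have e1 : (s v - s y) * (B.1 - s v) = 0 := by nlinarith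
      have e2 : s v - s y ≠ 0 := sub_ne_zero.mpr fun e => hvy (hs.injective e)
      have e3 : B.1 = s v := by
        rcases mul_eq_zero.mp e1 with h | h
        · exact absurd h e2
        · linarith
      apply hBA
      refine Prod.ext e3 ?_
      rw [e3] at hB
      simp only [Q]
      nlinarith
    · exact hBA (line_meet hs hvq (Ne.symm hqy) hB hB2)

lemma vertex_face (hs : StrictMono s) {n v x y p q : ℕ} (hn : 4 ≤ n) (hv : v < n) (hx : x < n)
    (hy : y < n) (hp : p < n) (hq : q < n) (hvx : v ≠ x) (hvy : v ≠ y) (hxy : x ≠ y)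
    {B C : ℝ × ℝ} (hdet : det (Q s v) B C ≠ 0)
    (hD : Disjoint (oTri (Q s v) B C) (Dn s n)) (hB : B ∈ segment ℝ (Q s v) (Q s y))
    (hC : C ∈ segment ℝ (Q s v) (Q s x)) (hBpq : B ∈ segment ℝ (Q s p) (Q s q))
    (hCpq : C ∈ segment ℝ (Q s p) (Q s q)) :
    ∃ w < n, w ≠ v ∧ nx n w ≠ v ∧ oTri (Q s v) B C = tv s n v w := by
  have hBA : B ≠ Q s v := by rintro rfl; apply hdet; unfold det; ring
  have hCA : C ≠ Q s v := by rintro rfl; apply hdet; unfold det; ring
  have hBC : B ≠ C := by rintro rfl; apply hdet; unfold det; ring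
  have lB := ln_seg hB
  have lC := ln_seg hC
  have lB2 := ln_seg hBpq
  have lC2 := ln_seg hCpq
  have hvp : v ≠ p := seg_ne hs hvy hxy hBA hCA lB lC lB2 lC2
  have hvq : v ≠ q := seg_ne hs hvy hxy hBA hCA lB lC
    (by rw [ln_comm]; exact lB2) (by rw [ln_comm]; exact lC2)
  obtain ⟨σ, hσ1, hσ2⟩ := earsign hs hn hv
  have hσ0 : σ ≠ 0 := by rintro rfl; simp at hσ1
  have hle : ∀ w < n, w ≠ v → σ * ln s (pr n v) (nx n v) (Q s w) ≤ 0 := by
    intro w hw hwv
    by_cases h1 : w = pr n v
    · rw [h1, ln_Q]; simp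
    by_cases h2 : w = nx n v
    · rw [h2, ln_Q]; simp
    exact (hσ2 w hw hwv h1 h2).le
  have hleseg : ∀ z ∈ segment ℝ (Q s p) (Q s q), σ * ln s (pr n v) (nx n v) z ≤ 0 := by
    rintro z ⟨a, b, ha, hb, hab, rfl⟩
    rw [ln_comb _ _ _ _ hab]
    have := mul_nonneg ha (neg_nonneg.mpr (hle p hp hvp.symm))
    have := mul_nonneg hb (neg_nonneg.mpr (hle q hq hvq.symm))
    nlinarith
  have gC : σ * ln s (pr n v) (nx n v) C = 0 :=
    near_vertex hs hn hv hx hvx hdet hD hC hσ1 hσ2 (hleseg C hCpq)
  have gB : σ * ln s (pr n v) (nx n v) B = 0 := by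
    refine near_vertex hs hn hv hy hvy (B := C) ?_ ?_ hB hσ1 hσ2 (hleseg B hBpq)
    · rw [det_swap]
      exact neg_ne_zero.mpr hdet
    · rw [oTri_swap]; exact hD
  have gC' : ln s (pr n v) (nx n v) C = 0 := (mul_eq_zero.mp gC).resolve_left hσ0
  have gB' : ln s (pr n v) (nx n v) B = 0 := (mul_eq_zero.mp gB).resolve_left hσ0
  -- the two directions are adjacent
  have hadj : ∀ x y : ℕ, x < n → y < n → v ≠ x → v ≠ y → x < y → ∀ B C : ℝ × ℝ,
      det (Q s v) B C ≠ 0 → Disjoint (oTri (Q s v) B C) (Dn s n) →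
      B ∈ segment ℝ (Q s v) (Q s y) → C ∈ segment ℝ (Q s v) (Q s x) →
      ln s (pr n v) (nx n v) B = 0 → ln s (pr n v) (nx n v) C = 0 →
      y = nx n x ∨ x = nx n y := by
    intro x y hx hy hvx hvy hxy B C hdet hD hB hC gB gC
    by_contra hcon
    push Not at hcon
    obtain ⟨w, hw, w1, w2, w3, α, β, hα, hβ, e1, e2⟩ :=
      between hs hn hv hx hy hvx hvy hxy hcon.1 hcon.2
    have hBA : B ≠ Q s v := by rintro rfl; apply hdet; unfold det; ring
    have hCA : C ≠ Q s v := by rintro rfl; apply hdet; unfold det; ring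
    obtain ⟨a, b, ha, hb, hab, hBeq⟩ := hB
    obtain ⟨c, d, hc, hd, hcd, hCeq⟩ := hC
    have hb0 : 0 < b := by
      refine lt_of_le_of_ne hb ?_
      rintro rfl
      apply hBA
      rw [← hBeq]
      have : a = 1 := by linarith
      rw [this]; simp
    have hd0 : 0 < d := by
      refine lt_of_le_of_ne hd ?_
      rintro rfl
      apply hCA
      rw [← hCeq]
      have : c = 1 := by linarith
      rw [this]; simp
    set T := α / d + β / b with hT
    have hTpos : 0 < T := by positivity
    -- the intersection point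
    set z := (β / b / T) • B + (α / d / T) • C with hz
    have hzBC : z ∈ openSegment ℝ B C := by
      refine ⟨_, _, by positivity, by positivity, ?_, rfl⟩
      rw [← add_div, add_comm, ← hT, div_self hTpos.ne']
    have hzsum : β / b / T + α / d / T = 1 := by
      rw [← add_div, add_comm, ← hT, div_self hTpos.ne']
    have gz : ln s (pr n v) (nx n v) z = 0 := by
      rw [hz, ln_comb _ _ _ _ hzsum, gB, gC]; ring
    have hzw : z = (1 - 1 / T) • Q s v + (1 / T) • Q s w := by
      have ha' : a = 1 - b := by linarith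
      have hc' : c = 1 - d := by linarith
      have e1' : s w = s v + (α * (s x - s v) + β * (s y - s v)) := by linarith
      have e2' : s w ^ 2 = s v ^ 2 + (α * (s x ^ 2 - s v ^ 2) + β * (s y ^ 2 - s v ^ 2)) := by
        linarith
      have hTT : α * b + β * d = T * (b * d) := by
        rw [hT]; field_simp
      rw [hz, ← hBeq, ← hCeq, ha', hc']
      refine Prod.ext ?_ ?_
      · simp only [Q, Prod.fst_add, Prod.smul_fst, smul_eq_mul]
        rw [e1']
        field_simp
        linear_combination (s v) * hTT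
      · simp only [Q, Prod.snd_add, Prod.smul_snd, smul_eq_mul]
        rw [e2']
        field_simp
        linear_combination (s v ^ 2) * hTT
    have hgw := hσ2 w hw w1 w2 w3
    have g3 : (1 - 1 / T) * (σ * ln s (pr n v) (nx n v) (Q s v)) +
        (1 / T) * (σ * ln s (pr n v) (nx n v) (Q s w)) = 0 := by
      have : σ * ln s (pr n v) (nx n v) z = 0 := by rw [gz, mul_zero]
      rw [hzw, ln_comb _ _ _ _ (by ring)] at this
      linarith
    have hTinv : 0 < 1 / T := by positivity
    have h1T : 0 < 1 - 1 / T := by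
      by_contra hcon
      push Not at hcon
      have h1 := mul_nonneg (neg_nonneg.mpr hcon) hσ1.le
      have h2 := mul_pos hTinv (neg_pos.mpr hgw)
      nlinarith
    have hzvw : z ∈ openSegment ℝ (Q s v) (Q s w) := ⟨_, _, h1T, hTinv, by ring, hzw.symm⟩
    have hdet' : det B (Q s v) C ≠ 0 := by
      rw [det_rot, det_swap]
      exact neg_ne_zero.mpr hdet
    have hD' : Disjoint (oTri B (Q s v) C) (Dn s n) := by
      rw [oTri_rot, oTri_swap]; exact hD
    refine no_cross hdet' hD' (seg_sub_Dn hv hw w1.symm) hzBC hzvw ?_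
    intro r hr
    have h1 := ln_sub (s := s) (pr n v) (nx n v) B C _ r hr (Q s v)
    have h2 : Q s v + (Q s w - Q s v) = Q s w := by abel
    rw [h2, gB, gC, sub_zero, mul_zero, sub_eq_zero] at h1
    rw [h1] at hgw
    linarith
  have hadj' : y = nx n x ∨ x = nx n y := by
    rcases lt_or_gt_of_ne hxy with h | h
    · exact hadj x y hx hy hvx hvy h B C hdet hD hB hC gB' gC'
    · have := hadj y x hy hx hvy hvx h C B (by rw [det_swap]; exact neg_ne_zero.mpr hdet)
        (by rw [oTri_swap]; exact hD) hC hB gC' gB'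
      exact this.symm
  have hpr := pr_ne (n := n) (v := v) (by omega)
  have hnx := nx_ne (n := n) (v := v) (by omega)
  have mB : B = meet s v y (pr n v) (nx n v) :=
    meet_eq hs lB gB' (fun h => hpr h.1.symm) (fun h => hnx h.1.symm)
  have mC : C = meet s v x (pr n v) (nx n v) :=
    meet_eq hs lC gC' (fun h => hpr h.1.symm) (fun h => hnx h.1.symm)
  rcases hadj' with h | h
  · refine ⟨x, hx, hvx.symm, ?_, ?_⟩
    · rw [← h]; exact hvy.symm
    · rw [oTri_swap]
      unfold tv
      rw [← h, ← mB, ← mC]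
  · refine ⟨y, hy, hvy.symm, ?_, ?_⟩
    · rw [← h]; exact hvx.symm
    · unfold tv
      rw [← h, ← mB, ← mC]

/-- The triangles containing a side of the polygon are counted twice. -/
lemma tv_twice (hs : StrictMono s) {n v : ℕ} (hn : 4 ≤ n) (hv : v < n) :
    tv s n v (nx n v) = tv s n (nx n v) (pr n v) := by
  have hnv := nx_lt hv
  have h1 : pr n (nx n v) = v := pr_nx hv
  have h2 : nx n (pr n v) = v := nx_pr hv
  unfold tv
  rw [h1, h2]
  have a1 := nx_ne (n := n) (v := v) (by omega)
  have a2 := pr_ne (n := n) (v := v) (by omega)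
  have a3 := nx_ne_pr (n := n) (v := v) (by omega) hv
  have a4 : nx n (nx n v) ≠ v := by unfold nx; split_ifs <;> omega
  have a5 := nx_ne (n := n) (v := nx n v) (by omega)
  -- corners
  have e1 : meet s v (nx n v) (pr n v) (nx n v) = Q s (nx n v) := by
    symm
    refine meet_eq hs (by rw [ln_Q]; ring) (by rw [ln_Q]; ring) (fun h => a2 h.1.symm)
      (fun h => a1 h.1.symm)
  have e2 : meet s (nx n v) v v (nx n (nx n v)) = Q s v := by
    symm
    refine meet_eq hs (by rw [ln_Q]; ring) (by rw [ln_Q]; ring) (fun h => a1 h.1)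
      (fun h => a5 h.1.symm)
  have e3 : meet s (nx n v) (pr n v) v (nx n (nx n v)) =
      meet s v (nx n (nx n v)) (pr n v) (nx n v) := by
    have a6 : nx n (nx n v) ≠ pr n v := by unfold nx pr; split_ifs <;> omega
    have hd : s (nx n v) + s (pr n v) - s v - s (nx n (nx n v)) ≠ 0 := by
      intro h
      have h3 := sepsign hs hn hv (nx_lt hnv) a4 a6 a5
      have h4 : ln s v (nx n (nx n v)) (Q s (nx n v)) = ln s v (nx n (nx n v)) (Q s (pr n v)) := by
        rw [ln_Q, ln_Q]
        linear_combination (s (nx n v) - s (pr n v)) * h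
      rw [h4] at h3
      nlinarith [mul_self_nonneg (ln s v (nx n (nx n v)) (Q s (pr n v)))]
    have hX : (s (nx n v) * s (pr n v) - s v * s (nx n (nx n v))) /
        (s (nx n v) + s (pr n v) - s v - s (nx n (nx n v))) =
        (s v * s (nx n (nx n v)) - s (pr n v) * s (nx n v)) /
        (s v + s (nx n (nx n v)) - s (pr n v) - s (nx n v)) := by
      rw [← neg_div_neg_eq]
      congr 1 <;> ring
    have hX2 : (s (nx n v) + s (pr n v) - s v - s (nx n (nx n v))) *
        ((s (nx n v) * s (pr n v) - s v * s (nx n (nx n v))) /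
        (s (nx n v) + s (pr n v) - s v - s (nx n (nx n v)))) =
        s (nx n v) * s (pr n v) - s v * s (nx n (nx n v)) := by
      field_simp
    unfold meet
    rw [← hX]
    refine Prod.ext rfl ?_
    simp only
    linarith
  rw [e1, e2, e3]
  rw [oTri_rot, oTri_swap]

end Pool.Agent.J4H91.Drw
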