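import Mathlib

/-!
# Convex drawings of complete graphs: definitions

A convex drawing of `K_n` is given by `n` points of the plane in strictly convex position
(`ConvexIndependent ℝ P`); the edges are the straight segments between them.
-/

set_option autoImplicit false

namespace Pool.Agent.J4H91.Drw

/-- The union of all edges of the straight-line drawing of the complete graph on the points `P i`. -/
def edgeUnion {n : ℕ} (P : Fin n → ℝ × ℝ) : Set (ℝ × ℝ) :=
  {z | ∃ i j : Fin n, i < j ∧ z ∈ segment ℝ (P i) (P j)}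

/-- Generic drawing: no three distinct edges pass through a common point other than a vertex. -/
def Generic {n : ℕ} (P : Fin n → ℝ × ℝ) : Prop :=
  ∀ i j k l p q : Fin n, i < j → k < l → p < q →
    (i, j) ≠ (k, l) → (i, j) ≠ (p, q) → (k, l) ≠ (p, q) →
    ∀ z : ℝ × ℝ, z ∈ segment ℝ (P i) (P j) → z ∈ segment ℝ (P k) (P l) →
      z ∈ segment ℝ (P p) (P q) → z ∈ Set.range P

/-- The bounded faces: the bounded connected components of the complement of the edges. -/
def faces {n : ℕ} (P : Fin n → ℝ × ℝ) : Set (Set (ℝ × ℝ)) :=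
  {F | Bornology.IsBounded F ∧
    ∃ z ∈ (edgeUnion P)ᶜ, F = connectedComponentIn (edgeUnion P)ᶜ z}

/-- The 3-faces: the bounded faces that are (the interior of) a nondegenerate triangle. -/
def threeFaces {n : ℕ} (P : Fin n → ℝ × ℝ) : Set (Set (ℝ × ℝ)) :=
  {F | F ∈ faces P ∧ ∃ A B C : ℝ × ℝ,
    AffineIndependent ℝ ![A, B, C] ∧ F = interior (convexHull ℝ {A, B, C})}

/-- `t n`: the least number of 3-faces of a convex drawing of `K_n`. -/
noncomputable def t (n : ℕ) : ℕ∞ :=
  ⨅ (P : Fin n → ℝ × ℝ) (_ : ConvexIndependent ℝ P), (threeFaces P).encard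

/-- `tgen n`: the least number of 3-faces of a generic convex drawing of `K_n`. -/
noncomputable def tgen (n : ℕ) : ℕ∞ :=
  ⨅ (P : Fin n → ℝ × ℝ) (_ : ConvexIndependent ℝ P ∧ Generic P), (threeFaces P).encard

end Pool.Agent.J4H91.Drw
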