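import Pool.Agent.J4H91.Drw.Six

/-!
# The drawing and the count
-/

set_option autoImplicit false

namespace Pool.Agent.J4H91.Drw

variable {s : ℕ → ℝ}

lemma edgeUnion_eq (n : ℕ) : edgeUnion (fun i : Fin n => Q s i) = Dn s n := by
  ext z
  constructor
  · rintro ⟨i, j, hij, hz⟩
    exact ⟨i, j, hij, j.2, hz⟩
  · rintro ⟨i, j, hij, hj, hz⟩
    exact ⟨⟨i, hij.trans hj⟩, ⟨j, hj⟩, hij, hz⟩

lemma convex_par (hs : StrictMono s) (n : ℕ) :
    ConvexIndependent ℝ (fun i : Fin n => Q s i) := by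
  intro S x hx
  by_contra hxS
  have hsub : convexHull ℝ ((fun i : Fin n => Q s i) '' S) ⊆ {z | 0 < ln s x x z} := by
    refine convexHull_min ?_ ?_
    · rintro _ ⟨i, hi, rfl⟩
      simp only [Set.mem_setOf_eq]
      rw [ln_Q]
      have hne : s i - s x ≠ 0 := by
        intro h
        have : (i : ℕ) = x := hs.injective (by linarith)
        exact hxS (by rwa [← Fin.ext this])
      exact mul_self_pos.mpr hne
    · intro X hX Y hY a b ha hb hab
      simp only [Set.mem_setOf_eq] at *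
      rw [ln_comb _ _ _ _ hab]
      rcases ha.eq_or_lt with h | h
      · have : b = 1 := by linarith
        rw [← h, this]; linarith
      · have := mul_pos h hX
        have := mul_nonneg hb hY.le
        linarith
  have := hsub hx
  simp only [Set.mem_setOf_eq] at this
  rw [ln_Q] at this
  simp at this

lemma share_vertex (hs : StrictMono s) {i j k l : ℕ} (hij : i < j) (hkl : k < l)
    (hne : (i, j) ≠ (k, l)) {z : ℝ × ℝ} (h1 : ln s i j z = 0) (h2 : ln s k l z = 0)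
    (hsh : i = k ∨ i = l ∨ j = k ∨ j = l) : z = Q s i ∨ z = Q s j := by
  rcases hsh with rfl | rfl | rfl | rfl
  · left
    exact line_meet hs hkl.ne (fun h => hne (by rw [h])) h1 h2
  · left
    rw [ln_comm] at h2
    exact line_meet hs hkl.ne' (by omega) h1 h2
  · right
    rw [ln_comm] at h1
    exact line_meet hs hkl.ne (by omega) h1 h2
  · right
    rw [ln_comm] at h1 h2
    exact line_meet hs hkl.ne' (fun h => hne (by rw [h])) h1 h2

lemma generic_par (h : Fast s) (n : ℕ) : Generic (fun i : Fin n => Q s i) := by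
  have hs := h.mono
  intro i j k l p q hij hkl hpq hne1 hne2 hne3 z h1 h2 h3
  have hne1' : ((i : ℕ), (j : ℕ)) ≠ ((k : ℕ), (l : ℕ)) := by
    intro e
    simp only [Prod.mk.injEq] at e
    exact hne1 (Prod.ext (Fin.ext e.1) (Fin.ext e.2))
  have hne2' : ((i : ℕ), (j : ℕ)) ≠ ((p : ℕ), (q : ℕ)) := by
    intro e
    simp only [Prod.mk.injEq] at e
    exact hne2 (Prod.ext (Fin.ext e.1) (Fin.ext e.2))
  have hne3' : ((k : ℕ), (l : ℕ)) ≠ ((p : ℕ), (q : ℕ)) := by
    intro e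
    simp only [Prod.mk.injEq] at e
    exact hne3 (Prod.ext (Fin.ext e.1) (Fin.ext e.2))
  by_contra hcon
  have nv : ∀ v : Fin n, z ≠ Q s v := fun v e => hcon ⟨v, e.symm⟩
  have sh : ∀ i j k l : Fin n, i < j → k < l → ((i : ℕ), (j : ℕ)) ≠ ((k : ℕ), (l : ℕ)) →
      z ∈ segment ℝ (Q s i) (Q s j) → z ∈ segment ℝ (Q s k) (Q s l) →
      ((i : ℕ) < k ∧ (k : ℕ) < j ∧ (j : ℕ) < l) ∨ ((k : ℕ) < i ∧ (i : ℕ) < l ∧ (l : ℕ) < j) := by
    intro i j k l hij hkl hne h1 h2
    have hnot : ¬ ((i : ℕ) = k ∨ (i : ℕ) = l ∨ (j : ℕ) = k ∨ (j : ℕ) = l) := by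
      intro hsh
      rcases share_vertex hs hij hkl hne (ln_seg h1) (ln_seg h2) hsh with e | e
      · exact nv i e
      · exact nv j e
    push Not at hnot
    exact interlace hs hij hkl h1 h2 hnot.1 hnot.2.1 hnot.2.2.1 hnot.2.2.2
  -- three pairwise crossing chords
  have no3 : ∀ a b c d e f : ℕ, a < b → b < c → c < d → d < e → e < f →
      ln s a d z = 0 → ln s b e z = 0 → ln s c f z = 0 → False := by
    intro a b c d e f hab hbc hcd hde hef l1 l2 l3
    have e1 := x_bounds h hab (hbc.trans hcd) hde l1 l2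
    have e2 := x_bounds h (hab.trans hbc) hcd (hde.trans hef) l1 l3
    have := h.le hbc
    linarith [e1.1, e1.2, e2.1, e2.2]
  have l1 := ln_seg h1
  have l2 := ln_seg h2
  have l3 := ln_seg h3
  rcases sh i j k l hij hkl hne1' h1 h2 with a | a <;>
  rcases sh i j p q hij hpq hne2' h1 h3 with b | b <;>
  rcases sh k l p q hkl hpq hne3' h2 h3 with c | c
  · exact no3 i k p j l q (by omega) (by omega) (by omega) (by omega) (by omega) l1 l2 l3
  · exact no3 i p k j q l (by omega) (by omega) (by omega) (by omega) (by omega) l1 l3 l2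
  · omega
  · exact no3 p i k q j l (by omega) (by omega) (by omega) (by omega) (by omega) l3 l1 l2
  · exact no3 k i p l j q (by omega) (by omega) (by omega) (by omega) (by omega) l2 l1 l3
  · omega
  · exact no3 k p i l q j (by omega) (by omega) (by omega) (by omega) (by omega) l2 l3 l1
  · exact no3 p k i q l j (by omega) (by omega) (by omega) (by omega) (by omega) l3 l2 l1

/-- The data of a triangular face: its corners and the chords containing its sides. -/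
structure TF (s : ℕ → ℝ) (n : ℕ) (A B C : ℝ × ℝ) (i1 j1 i2 j2 i3 j3 : ℕ) : Prop where
  det : det A B C ≠ 0
  dis : Disjoint (oTri A B C) (Dn s n)
  l1 : i1 < j1
  l2 : i2 < j2
  l3 : i3 < j3
  n1 : j1 < n
  n2 : j2 < n
  n3 : j3 < n
  A1 : A ∈ segment ℝ (Q s i1) (Q s j1)
  B1 : B ∈ segment ℝ (Q s i1) (Q s j1)
  B2 : B ∈ segment ℝ (Q s i2) (Q s j2)
  C2 : C ∈ segment ℝ (Q s i2) (Q s j2)
  C3 : C ∈ segment ℝ (Q s i3) (Q s j3)
  A3 : A ∈ segment ℝ (Q s i3) (Q s j3)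

lemma TF.rot {n : ℕ} {A B C : ℝ × ℝ} {i1 j1 i2 j2 i3 j3 : ℕ}
    (h : TF s n A B C i1 j1 i2 j2 i3 j3) : TF s n B C A i2 j2 i3 j3 i1 j1 where
  det := by rw [← det_rot]; exact h.det
  dis := by rw [← oTri_rot]; exact h.dis
  l1 := h.l2
  l2 := h.l3
  l3 := h.l1
  n1 := h.n2
  n2 := h.n3
  n3 := h.n1
  A1 := h.B2
  B1 := h.C2
  B2 := h.C3
  C2 := h.A3
  C3 := h.A1
  A3 := h.B1

lemma TF.ne13 {n : ℕ} {A B C : ℝ × ℝ} {i1 j1 i2 j2 i3 j3 : ℕ}
    (h : TF s n A B C i1 j1 i2 j2 i3 j3) : (i1, j1) ≠ (i3, j3) := by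
  intro e
  simp only [Prod.mk.injEq] at e
  obtain ⟨rfl, rfl⟩ := e
  have a := ln_seg h.A1
  have b := ln_seg h.B1
  have c := ln_seg h.C3
  apply h.det
  unfold ln at a b c
  unfold Drw.det
  have a' : A.2 = (s i1 + s j1) * A.1 - s i1 * s j1 := by linarith
  have b' : B.2 = (s i1 + s j1) * B.1 - s i1 * s j1 := by linarith
  have c' : C.2 = (s i1 + s j1) * C.1 - s i1 * s j1 := by linarith
  rw [a', b', c']
  ring

/-- The faces with a corner at a vertex. -/
def IsV (s : ℕ → ℝ) (n : ℕ) (F : Set (ℝ × ℝ)) : Prop :=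
  ∃ v < n, ∃ x < n, x ≠ v ∧ x ≠ pr n v ∧ x ≠ nx n v ∧ F = tv s n v x

/-- The faces without a corner at a vertex. -/
def IsS (s : ℕ → ℝ) (n : ℕ) (F : Set (ℝ × ℝ)) : Prop :=
  ∃ b d : ℕ, 1 ≤ b ∧ b + 2 ≤ d ∧ d + 3 ≤ n ∧ F = t0 s n b d

lemma TF.vertex {n : ℕ} (hs : StrictMono s) (hn : 4 ≤ n) {A B C : ℝ × ℝ}
    {i1 j1 i2 j2 i3 j3 : ℕ} (h : TF s n A B C i1 j1 i2 j2 i3 j3)
    (hsh : i1 = i3 ∨ i1 = j3 ∨ j1 = i3 ∨ j1 = j3) : IsV s n (oTri A B C) := by
  have main : ∃ v < n, ∃ w < n, w ≠ v ∧ nx n w ≠ v ∧ oTri A B C = tv s n v w := by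
    have hne := h.ne13
    have hl1 := h.l1
    have hl2 := h.l2
    have hl3 := h.l3
    have hn1 := h.n1
    have hn2 := h.n2
    have hn3 := h.n3
    have gen : ∀ v x y : ℕ, v < n → x < n → y < n → v ≠ x → v ≠ y → x ≠ y →
        A ∈ segment ℝ (Q s v) (Q s y) → B ∈ segment ℝ (Q s v) (Q s y) →
        C ∈ segment ℝ (Q s v) (Q s x) → A ∈ segment ℝ (Q s v) (Q s x) →
        ∃ v < n, ∃ w < n, w ≠ v ∧ nx n w ≠ v ∧ oTri A B C = tv s n v w := by
      intro v x y hv hx hy hvx hvy hxy hA hB hC hA2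
      have hAv : A = Q s v := line_meet hs hvy hxy (ln_seg hA2) (ln_seg hA)
      have hdet := h.det
      have hdis := h.dis
      rw [hAv] at hdet hdis
      obtain ⟨w, h1, h2, h3, h4⟩ := vertex_face hs hn hv hx hy (hl2.trans hn2) hn2 hvx hvy hxy
        hdet hdis hB hC h.B2 h.C2
      exact ⟨v, hv, w, h1, h2, h3, by rw [hAv]; exact h4⟩
    rcases hsh with e | e | e | e
    · subst e
      exact gen i1 j3 j1 (by omega) hn3 hn1 hl3.ne hl1.ne (fun e => hne (by rw [e]))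
        h.A1 h.B1 h.C3 h.A3
    · subst e
      have h1 := h.C3
      have h2 := h.A3
      rw [segment_symm] at h1 h2
      exact gen i1 i3 j1 (by omega) (by omega) hn1 hl3.ne' hl1.ne (by omega) h.A1 h.B1 h1 h2
    · subst e
      have h1 := h.A1
      have h2 := h.B1
      rw [segment_symm] at h1 h2
      exact gen j1 j3 i1 (by omega) hn3 (by omega) hl3.ne hl1.ne' (by omega) h1 h2 h.C3 h.A3
    · subst e
      have h1 := h.A1
      have h2 := h.B1
      have h3 := h.C3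
      have h4 := h.A3
      rw [segment_symm] at h1 h2 h3 h4
      exact gen j1 i3 i1 hn1 (by omega) (by omega) hl3.ne' hl1.ne' (fun e => hne (by rw [e]))
        h1 h2 h3 h4
  obtain ⟨v, hv, w, hw, h1, h2, h3⟩ := main
  have h2' : w ≠ pr n v := by
    rintro rfl
    exact h2 (nx_pr hv)
  by_cases h4 : w = nx n v
  · refine ⟨nx n v, nx_lt hv, pr n v, pr_lt hv, ?_, ?_, ?_, ?_⟩
    · exact (nx_ne_pr (by omega) hv).symm
    · rw [pr_nx hv]
      exact pr_ne (by omega)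
    · unfold pr nx; split_ifs <;> omega
    · rw [h3, h4]
      exact tv_twice hs hn hv
  · exact ⟨v, hv, w, hw, h1, h2', h4, h3⟩

lemma TF.six {n : ℕ} (hf : Fast s) {A B C : ℝ × ℝ} {i1 j1 i2 j2 i3 j3 : ℕ}
    (h : TF s n A B C i1 j1 i2 j2 i3 j3)
    (h12 : ¬ (i1 = i2 ∨ i1 = j2 ∨ j1 = i2 ∨ j1 = j2))
    (h23 : ¬ (i2 = i3 ∨ i2 = j3 ∨ j2 = i3 ∨ j2 = j3))
    (h13 : ¬ (i1 = i3 ∨ i1 = j3 ∨ j1 = i3 ∨ j1 = j3)) : IsS s n (oTri A B C) := by
  push Not at h12 h23 h13
  have hs := hf.mono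
  have hn1 := h.n1
  have hn2 := h.n2
  have hn3 := h.n3
  have a1 := ln_seg h.A1
  have b1 := ln_seg h.B1
  have b2 := ln_seg h.B2
  have c2 := ln_seg h.C2
  have c3 := ln_seg h.C3
  have a3 := ln_seg h.A3
  have i12 := interlace hs h.l1 h.l2 h.B1 h.B2 h12.1 h12.2.1 h12.2.2.1 h12.2.2.2
  have i23 := interlace hs h.l2 h.l3 h.C2 h.C3 h23.1 h23.2.1 h23.2.2.1 h23.2.2.2
  have i13 := interlace hs h.l1 h.l3 h.A1 h.A3 h13.1 h13.2.1 h13.2.2.1 h13.2.2.2
  have fin : ∀ a b c d e f : ℕ, a < b → b < c → c < d → d < e → e < f → f < n →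
      ∀ X1 X2 X3 : ℝ × ℝ, ln s a d X1 = 0 → ln s b e X1 = 0 → ln s a d X2 = 0 →
      ln s c f X2 = 0 → ln s b e X3 = 0 → ln s c f X3 = 0 → Drw.det X1 X2 X3 ≠ 0 →
      Disjoint (oTri X1 X2 X3) (Dn s n) → IsS s n (oTri X1 X2 X3) := by
    intro a b c d e f k1 k2 k3 k4 k5 k6 X1 X2 X3 m1 m2 m3 m4 m5 m6 m7 m8
    obtain ⟨r1, r2, r3, r4⟩ := Drw.six hf k1 k2 k3 k4 k5 k6 m1 m2 m3 m4 m5 m6 m7 m8
    exact ⟨b, d, r1, r2, r3, r4⟩
  -- permutations of the corners
  have dABC := h.det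
  have tABC := h.dis
  have dBCA : Drw.det B C A ≠ 0 := by rw [← det_rot]; exact dABC
  have dCAB : Drw.det C A B ≠ 0 := by rw [← det_rot]; exact dBCA
  have dACB : Drw.det A C B ≠ 0 := by rw [det_swap]; exact neg_ne_zero.mpr dABC
  have dBAC : Drw.det B A C ≠ 0 := by rw [det_swap]; exact neg_ne_zero.mpr dBCA
  have dCBA : Drw.det C B A ≠ 0 := by rw [det_swap]; exact neg_ne_zero.mpr dCAB
  have oBCA : oTri A B C = oTri B C A := oTri_rot _ _ _
  have oCAB : oTri A B C = oTri C A B := by rw [oBCA, oTri_rot]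
  have oACB : oTri A B C = oTri A C B := oTri_swap _ _ _
  have oBAC : oTri A B C = oTri B A C := by rw [oBCA, oTri_swap]
  have oCBA : oTri A B C = oTri C B A := by rw [oCAB, oTri_swap]
  rcases i12 with x | x <;> rcases i23 with y | y <;> rcases i13 with w | w
  · -- 1 < 2 < 3
    rw [oBAC] at tABC ⊢
    exact fin i1 i2 i3 j1 j2 j3 (by omega) (by omega) (by omega) (by omega) (by omega) hn3
      B A C b1 b2 a1 a3 c2 c3 dBAC tABC
  · omega
  · -- 1 < 3 < 2
    exact fin i1 i3 i2 j1 j3 j2 (by omega) (by omega) (by omega) (by omega) (by omega) hn2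
      A B C a1 a3 b1 b2 c3 c2 dABC tABC
  · -- 3 < 1 < 2
    rw [oACB] at tABC ⊢
    exact fin i3 i1 i2 j3 j1 j2 (by omega) (by omega) (by omega) (by omega) (by omega) hn2
      A C B a3 a1 c3 c2 b1 b2 dACB tABC
  · -- 2 < 1 < 3
    rw [oBCA] at tABC ⊢
    exact fin i2 i1 i3 j2 j1 j3 (by omega) (by omega) (by omega) (by omega) (by omega) hn3
      B C A b2 b1 c2 c3 a1 a3 dBCA tABC
  · -- 2 < 3 < 1
    rw [oCBA] at tABC ⊢
    exact fin i2 i3 i1 j2 j3 j1 (by omega) (by omega) (by omega) (by omega) (by omega) hn1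
      C B A c2 c3 b2 b1 a3 a1 dCBA tABC
  · omega
  · -- 3 < 2 < 1
    rw [oCAB] at tABC ⊢
    exact fin i3 i2 i1 j3 j2 j1 (by omega) (by omega) (by omega) (by omega) (by omega) hn1
      C A B c3 c2 a3 a1 b2 b1 dCAB tABC

lemma classify (hf : Fast s) {n : ℕ} (hn : 4 ≤ n) {F : Set (ℝ × ℝ)}
    (hF : F ∈ threeFaces (fun i : Fin n => Q s i)) : IsV s n F ∨ IsS s n F := by
  have hs := hf.mono
  obtain ⟨hF, A, B, C, hind, rfl⟩ := hF
  have hdet := det_ne hind
  rw [interior_hull hind] at hF ⊢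
  have hdis := face_disjoint hF
  have hAB := side_subset hdet hF
  have hdet2 : det B C A ≠ 0 := by rw [← det_rot]; exact hdet
  have hdet3 : det C A B ≠ 0 := by rw [← det_rot]; exact hdet2
  have hF2 : oTri B C A ∈ faces (fun i : Fin n => Q s i) := by rw [← oTri_rot]; exact hF
  have hF3 : oTri C A B ∈ faces (fun i : Fin n => Q s i) := by rw [← oTri_rot]; exact hF2
  have hBC := side_subset hdet2 hF2
  have hCA := side_subset hdet3 hF3
  rw [edgeUnion_eq] at hdis hAB hBC hCA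
  have nAB : A ≠ B := by rintro rfl; apply hdet; unfold det; ring
  have nBC : B ≠ C := by rintro rfl; apply hdet; unfold det; ring
  have nCA : C ≠ A := by rintro rfl; apply hdet; unfold det; ring
  obtain ⟨i1, j1, l1, n1, A1, B1⟩ := side_chord hs n nAB hAB
  obtain ⟨i2, j2, l2, n2, B2, C2⟩ := side_chord hs n nBC hBC
  obtain ⟨i3, j3, l3, n3, C3, A3⟩ := side_chord hs n nCA hCA
  have T : TF s n A B C i1 j1 i2 j2 i3 j3 :=
    ⟨hdet, hdis, l1, l2, l3, n1, n2, n3, A1, B1, B2, C2, C3, A3⟩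
  by_cases h13 : i1 = i3 ∨ i1 = j3 ∨ j1 = i3 ∨ j1 = j3
  · exact Or.inl (T.vertex hs hn h13)
  by_cases h12 : i1 = i2 ∨ i1 = j2 ∨ j1 = i2 ∨ j1 = j2
  · left
    rw [oTri_rot]
    exact T.rot.vertex hs hn (by omega)
  by_cases h23 : i2 = i3 ∨ i2 = j3 ∨ j2 = i3 ∨ j2 = j3
  · left
    rw [oTri_rot, oTri_rot]
    exact T.rot.rot.vertex hs hn (by omega)
  · exact Or.inr (T.six hf h12 h23 h13)

/-- The codes of the faces at the vertices. -/
def codeV (n : ℕ) : Finset (Σ _ : ℕ, ℕ) :=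
  (Finset.range n).sigma fun v => ((Finset.range n).erase v).erase (pr n v) |>.erase (nx n v)

/-- The codes of the other faces. -/
def codeS (n : ℕ) : Finset (Σ _ : ℕ, ℕ) :=
  (Finset.range (n - 4)).sigma fun j => Finset.range j

lemma card_codeV {n : ℕ} (hn : 4 ≤ n) : (codeV n).card = n * (n - 3) := by
  unfold codeV
  rw [Finset.card_sigma]
  rw [Finset.sum_congr rfl (g := fun _ => n - 3)]
  · simp
  · intro v hv
    have hv := Finset.mem_range.mp hv
    rw [Finset.card_erase_of_mem, Finset.card_erase_of_mem, Finset.card_erase_of_mem,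
      Finset.card_range]
    · omega
    · exact Finset.mem_range.mpr hv
    · exact Finset.mem_erase.mpr ⟨pr_ne (by omega), Finset.mem_range.mpr (pr_lt hv)⟩
    · exact Finset.mem_erase.mpr ⟨nx_ne_pr (by omega) hv,
        Finset.mem_erase.mpr ⟨nx_ne (by omega), Finset.mem_range.mpr (nx_lt hv)⟩⟩

lemma card_codeS (n : ℕ) : (codeS n).card = (n - 4).choose 2 := by
  unfold codeS
  rw [Finset.card_sigma]
  simp only [Finset.card_range]
  rw [Finset.sum_range_id, Nat.choose_two_right]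

lemma count (hf : Fast s) {n : ℕ} (hn : 4 ≤ n) :
    (threeFaces (fun i : Fin n => Q s i)).encard ≤ ((n * (n - 3) + (n - 4).choose 2 : ℕ) : ℕ∞) := by
  classical
  have hsub : threeFaces (fun i : Fin n => Q s i) ⊆
      ((fun c : (Σ _ : ℕ, ℕ) => tv s n c.1 c.2) '' (codeV n : Set (Σ _ : ℕ, ℕ))) ∪
      ((fun c : (Σ _ : ℕ, ℕ) => t0 s n (c.2 + 1) (c.1 + 2)) '' (codeS n : Set (Σ _ : ℕ, ℕ))) := by
    intro F hF
    rcases classify hf hn hF with ⟨v, hv, x, hx, h1, h2, h3, rfl⟩ | ⟨b, d, h1, h2, h3, rfl⟩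
    · left
      refine ⟨⟨v, x⟩, ?_, rfl⟩
      simp only [codeV, Finset.coe_sigma, Set.mem_sigma_iff, Finset.mem_coe, Finset.mem_range,
        Finset.mem_erase]
      exact ⟨hv, h3, h2, h1, hx⟩
    · right
      refine ⟨⟨d - 2, b - 1⟩, ?_, ?_⟩
      · simp only [codeS, Finset.coe_sigma, Set.mem_sigma_iff, Finset.mem_coe, Finset.mem_range]
        omega
      · show t0 s n (b - 1 + 1) (d - 2 + 2) = _
        rw [show b - 1 + 1 = b by omega, show d - 2 + 2 = d by omega]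
  refine (Set.encard_le_encard hsub).trans ((Set.encard_union_le _ _).trans ?_)
  have e1 : ((fun c : (Σ _ : ℕ, ℕ) => tv s n c.1 c.2) '' (codeV n : Set (Σ _ : ℕ, ℕ))).encard ≤
      ((n * (n - 3) : ℕ) : ℕ∞) := by
    refine (Set.encard_image_le _ _).trans ?_
    rw [Set.encard_coe_eq_coe_finsetCard, card_codeV hn]
  have e2 : ((fun c : (Σ _ : ℕ, ℕ) => t0 s n (c.2 + 1) (c.1 + 2)) ''
      (codeS n : Set (Σ _ : ℕ, ℕ))).encard ≤ (((n - 4).choose 2 : ℕ) : ℕ∞) := by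
    refine (Set.encard_image_le _ _).trans ?_
    rw [Set.encard_coe_eq_coe_finsetCard, card_codeS]
  calc _ ≤ ((n * (n - 3) : ℕ) : ℕ∞) + (((n - 4).choose 2 : ℕ) : ℕ∞) := add_le_add e1 e2
    _ = _ := by push_cast; rfl

/-- The explicit fast sequence `2 ^ 2 ^ i`. -/
noncomputable def s0 (i : ℕ) : ℝ := 2 ^ (2 ^ i)

lemma s0_succ (i : ℕ) : s0 (i + 1) = s0 i ^ 2 := by
  unfold s0
  rw [← pow_mul, pow_succ]

lemma two_le_s0 (i : ℕ) : 2 ≤ s0 i := by
  induction i with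
  | zero => unfold s0; norm_num
  | succ i ih => rw [s0_succ]; nlinarith

lemma s0_step (i : ℕ) : s0 i + 1 ≤ s0 (i + 1) := by
  rw [s0_succ]
  have := two_le_s0 i
  nlinarith

lemma s0_mono : StrictMono s0 := by
  apply strictMono_nat_of_lt_succ
  intro i
  linarith [s0_step i]

lemma s0_sq {c d : ℕ} (h : c < d) : s0 c ^ 2 ≤ s0 d := by
  rw [← s0_succ]
  exact s0_mono.monotone h

lemma s0_fast : Fast s0 where
  mono := s0_mono
  step := s0_step
  fast := by
    intro a b c d hab hbc hcd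
    have h1 := s0_sq hcd
    have h2 := s0_mono hab
    have h3 : s0 b + 1 ≤ s0 c := (s0_step b).trans (s0_mono.monotone hbc)
    have h4 := two_le_s0 a
    have h5 : 0 < s0 c := by linarith [two_le_s0 c]
    have h6 : 0 ≤ s0 c * (s0 c - s0 b - 1) := mul_nonneg h5.le (by linarith)
    have h7 : 0 ≤ s0 b * (s0 b - s0 a) := mul_nonneg (by linarith [two_le_s0 b]) (by linarith)
    have h8 : 0 ≤ s0 a * s0 c := mul_nonneg (by linarith) h5.le
    nlinarith

end Pool.Agent.J4H91.Drw
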