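import Pool.Agent.J4H91.Drw.Topo

/-!
# Points on a parabola
-/

set_option autoImplicit false

namespace Pool.Agent.J4H91.Drw

open Filter Topology

/-- The point of the parabola with abscissa `s i`. -/
def Q (s : ℕ → ℝ) (i : ℕ) : ℝ × ℝ := (s i, s i ^ 2)

/-- The affine function vanishing on the line through `Q s i` and `Q s j`. -/
def ln (s : ℕ → ℝ) (i j : ℕ) (z : ℝ × ℝ) : ℝ := z.2 - (s i + s j) * z.1 + s i * s j

/-- The union of the edges, indexed by natural numbers. -/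
def Dn (s : ℕ → ℝ) (n : ℕ) : Set (ℝ × ℝ) :=
  {z | ∃ i j : ℕ, i < j ∧ j < n ∧ z ∈ segment ℝ (Q s i) (Q s j)}

variable {s : ℕ → ℝ}

lemma ln_comm (i j : ℕ) (z : ℝ × ℝ) : ln s i j z = ln s j i z := by unfold ln; ring

lemma ln_Q (i j w : ℕ) : ln s i j (Q s w) = (s w - s i) * (s w - s j) := by unfold ln Q; ring

lemma ln_comb (i j : ℕ) (a b : ℝ) (hab : a + b = 1) (X Y : ℝ × ℝ) :
    ln s i j (a • X + b • Y) = a * ln s i j X + b * ln s i j Y := by
  unfold ln
  have : b = 1 - a := by linarith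
  subst this
  simp
  ring

lemma ln_seg {i j : ℕ} {z : ℝ × ℝ} (h : z ∈ segment ℝ (Q s i) (Q s j)) : ln s i j z = 0 := by
  obtain ⟨a, b, -, -, hab, rfl⟩ := h
  rw [ln_comb _ _ _ _ hab, ln_Q, ln_Q]
  ring

lemma ln_step (i j : ℕ) (X Y : ℝ × ℝ) (e : ℝ) :
    ln s i j (X + e • (Y - X)) = (1 - e) * ln s i j X + e * ln s i j Y := by
  unfold ln
  simp
  ring

lemma ln_sub (i j : ℕ) (X Y V : ℝ × ℝ) (e : ℝ) (h : V = e • (Y - X)) (W : ℝ × ℝ) :
    ln s i j (W + V) - ln s i j W = e * (ln s i j Y - ln s i j X) := by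
  subst h
  unfold ln
  simp
  ring

lemma chord_unique (hs : StrictMono s) {i j k l : ℕ} {A B : ℝ × ℝ} (hAB : A ≠ B)
    (h1 : ln s i j A = 0) (h2 : ln s i j B = 0) (h3 : ln s k l A = 0) (h4 : ln s k l B = 0) :
    (i = k ∧ j = l) ∨ (i = l ∧ j = k) := by
  unfold ln at h1 h2 h3 h4
  have hne : A.1 ≠ B.1 := by
    intro h
    apply hAB
    rw [h] at h1
    exact Prod.ext h (by linarith)
  have e1 : (s i + s j - s k - s l) * (A.1 - B.1) = 0 := by nlinarith
  have e2 : s i + s j - s k - s l = 0 := by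
    rcases mul_eq_zero.mp e1 with h | h
    · exact h
    · exact absurd (sub_eq_zero.mp h) hne
  have e3 : s i * s j = s k * s l := by
    have : s i + s j = s k + s l := by linarith
    rw [this] at h1
    linarith
  have e4 : (s i - s k) * (s i - s l) = 0 := by
    have : s j = s k + s l - s i := by linarith
    rw [this] at e3
    nlinarith
  rcases mul_eq_zero.mp e4 with h | h
  · left
    have h5 : s i = s k := by linarith
    have h6 : s j = s l := by linarith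
    exact ⟨hs.injective h5, hs.injective h6⟩
  · right
    have h5 : s i = s l := by linarith
    have h6 : s j = s k := by linarith
    exact ⟨hs.injective h5, hs.injective h6⟩

lemma line_meet (hs : StrictMono s) {v x y : ℕ} (hvy : v ≠ y) (hxy : x ≠ y)
    {A : ℝ × ℝ} (h1 : ln s v x A = 0) (h2 : ln s v y A = 0) : A = Q s v := by
  by_contra hne
  have h3 : ln s v x (Q s v) = 0 := by rw [ln_Q]; ring
  have h4 : ln s v y (Q s v) = 0 := by rw [ln_Q]; ring
  rcases chord_unique hs hne h1 h3 h2 h4 with h | h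
  · exact hxy h.2
  · exact hvy h.1

lemma segment_closed (X Y : ℝ × ℝ) : IsClosed (segment ℝ X Y) := by
  rw [segment_eq_image']
  exact (isCompact_Icc.image (by fun_prop)).isClosed

/-- A segment starting at `A` covered by the edges: some edge contains `A` and lies on the line. -/
lemma start_chord (n : ℕ) {A B : ℝ × ℝ} (h : segment ℝ A B ⊆ Dn s n) :
    ∃ i j : ℕ, i < j ∧ j < n ∧ A ∈ segment ℝ (Q s i) (Q s j) ∧ ln s i j A = 0 ∧
      ln s i j B = 0 := by
  have hmem : ∀ k : ℕ, A + (1 / ((k : ℝ) + 1)) • (B - A) ∈ segment ℝ A B := by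
    intro k
    rw [segment_eq_image']
    refine ⟨1 / ((k : ℝ) + 1), ⟨by positivity, ?_⟩, rfl⟩
    rw [div_le_one (by positivity)]
    have : (0 : ℝ) ≤ k := Nat.cast_nonneg k
    linarith
  have hcl : ∃ c : Fin n × Fin n, ∃ᶠ k : ℕ in atTop, c.1 < c.2 ∧
      A + (1 / ((k : ℝ) + 1)) • (B - A) ∈ segment ℝ (Q s c.1) (Q s c.2) := by
    by_contra hcon
    push Not at hcon
    have h1 : ∀ᶠ k : ℕ in atTop, ∀ c : Fin n × Fin n, ¬ (c.1 < c.2 ∧
        A + (1 / ((k : ℝ) + 1)) • (B - A) ∈ segment ℝ (Q s c.1) (Q s c.2)) := by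
      rw [eventually_all]
      intro c
      exact (hcon c).mono fun k hk hk2 => hk hk2.1 hk2.2
    obtain ⟨k, hk⟩ := h1.exists
    obtain ⟨i, j, hij, hj, hz⟩ := h (hmem k)
    exact hk (⟨i, hij.trans hj⟩, ⟨j, hj⟩) ⟨hij, hz⟩
  obtain ⟨c, hc⟩ := hcl
  refine ⟨c.1, c.2, ?_, c.2.2, ?_⟩
  · obtain ⟨k, hk, -⟩ := hc.exists
    exact hk
  have hA : A ∈ segment ℝ (Q s c.1) (Q s c.2) := by
    have hlim : Tendsto (fun k : ℕ => A + (1 / ((k : ℝ) + 1)) • (B - A))
        atTop (𝓝 (A + (0 : ℝ) • (B - A))) :=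
      tendsto_const_nhds.add (tendsto_one_div_add_atTop_nhds_zero_nat.smul_const _)
    rw [zero_smul, add_zero] at hlim
    exact (segment_closed _ _).mem_of_frequently_of_tendsto (hc.mono fun k hk => hk.2) hlim
  refine ⟨hA, ln_seg hA, ?_⟩
  obtain ⟨k, hk, hk2⟩ := hc.exists
  have h1 := ln_seg hk2
  rw [ln_step, ln_seg hA] at h1
  have h2 : (1 : ℝ) / ((k : ℝ) + 1) ≠ 0 := by positivity
  have h3 : 1 / ((k : ℝ) + 1) * ln s (c.1 : ℕ) (c.2 : ℕ) B = 0 := by linarith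
  exact (mul_eq_zero.mp h3).resolve_left h2

lemma side_chord (hs : StrictMono s) (n : ℕ) {A B : ℝ × ℝ} (hAB : A ≠ B)
    (h : segment ℝ A B ⊆ Dn s n) :
    ∃ i j : ℕ, i < j ∧ j < n ∧ A ∈ segment ℝ (Q s i) (Q s j) ∧
      B ∈ segment ℝ (Q s i) (Q s j) := by
  obtain ⟨i, j, hij, hj, h1, h2, h3⟩ := start_chord n h
  rw [segment_symm] at h
  obtain ⟨k, l, hkl, hl, h4, h5, h6⟩ := start_chord n h
  rcases chord_unique hs hAB h2 h3 h6 h5 with ⟨rfl, rfl⟩ | ⟨rfl, rfl⟩
  · exact ⟨i, j, hij, hj, h1, h4⟩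
  · omega

end Pool.Agent.J4H91.Drw
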