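import Pool.Agent.J4H91.Drw.Code

/-!
# Triangular faces bounded by three pairwise crossing chords
-/

set_option autoImplicit false

namespace Pool.Agent.J4H91.Drw

/-- A fast growing sequence. -/
structure Fast (s : ℕ → ℝ) : Prop where
  mono : StrictMono s
  step : ∀ i, s i + 1 ≤ s (i + 1)
  fast : ∀ a b c d : ℕ, a < b → b < c → c < d →
    (s b - s a) * (s c - s b) < s b + s d - s a - s c

variable {s : ℕ → ℝ}

lemma Fast.le (h : Fast s) {i j : ℕ} (hij : i < j) : s i + 1 ≤ s j :=
  (h.step i).trans (h.mono.monotone hij)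

lemma x_eq {a b c d : ℕ} {z : ℝ × ℝ} (h1 : ln s a c z = 0) (h2 : ln s b d z = 0) :
    (z.1 - s b) * (s b + s d - s a - s c) = (s b - s a) * (s c - s b) := by
  unfold ln at h1 h2
  linarith

lemma x_bounds (h : Fast s) {a b c d : ℕ} (hab : a < b) (hbc : b < c) (hcd : c < d) {z : ℝ × ℝ}
    (h1 : ln s a c z = 0) (h2 : ln s b d z = 0) : s b < z.1 ∧ z.1 < s b + 1 := by
  have e := x_eq h1 h2
  have p1 := sub_pos.mpr (h.mono hab)
  have p2 := sub_pos.mpr (h.mono hbc)
  have p3 := sub_pos.mpr (h.mono hcd)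
  have hD : 0 < s b + s d - s a - s c := by linarith
  have hN := mul_pos p1 p2
  have hf := h.fast a b c d hab hbc hcd
  constructor
  · by_contra hcon
    push Not at hcon
    have : (z.1 - s b) * (s b + s d - s a - s c) ≤ 0 :=
      mul_nonpos_of_nonpos_of_nonneg (by linarith) hD.le
    linarith
  · by_contra hcon
    push Not at hcon
    have : 1 * (s b + s d - s a - s c) ≤ (z.1 - s b) * (s b + s d - s a - s c) :=
      mul_le_mul_of_nonneg_right (by linarith) hD.le
    linarith

lemma cross_signs (hs : StrictMono s) {a b c d : ℕ} (hab : a < b) (hbc : b < c) (hcd : c < d) :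
    ln s a c (Q s b) * ln s a c (Q s d) < 0 ∧ ln s b d (Q s a) * ln s b d (Q s c) < 0 := by
  rw [ln_Q, ln_Q, ln_Q, ln_Q]
  have p1 := sub_pos.mpr (hs hab)
  have p2 := sub_pos.mpr (hs hbc)
  have p3 := sub_pos.mpr (hs hcd)
  have p4 := sub_pos.mpr (hs (hab.trans (hbc.trans hcd)))
  have := mul_pos (mul_pos p1 p2) (mul_pos p3 p4)
  constructor <;> nlinarith

lemma cross_exists (hs : StrictMono s) {a b c d : ℕ} (hab : a < b) (hbc : b < c) (hcd : c < d) :
    ∃ z, z ∈ openSegment ℝ (Q s a) (Q s c) ∧ z ∈ openSegment ℝ (Q s b) (Q s d) :=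
  cross_pt (cross_signs hs hab hbc hcd).1 (cross_signs hs hab hbc hcd).2

lemma in_between {i j : ℕ} {X Y z : ℝ × ℝ} (hX : ln s i j X = 0) (hY : ln s i j Y = 0)
    (hz : ln s i j z = 0) (h1 : X.1 < z.1) (h2 : z.1 < Y.1) : z ∈ openSegment ℝ X Y := by
  unfold ln at hX hY hz
  have hne : Y.1 - X.1 ≠ 0 := by linarith
  have hXY : 0 < Y.1 - X.1 := by linarith
  have hX2 : X.2 = (s i + s j) * X.1 - s i * s j := by linarith
  have hY2 : Y.2 = (s i + s j) * Y.1 - s i * s j := by linarith
  have hz2 : z.2 = (s i + s j) * z.1 - s i * s j := by linarith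
  refine ⟨(Y.1 - z.1) / (Y.1 - X.1), (z.1 - X.1) / (Y.1 - X.1), div_pos (by linarith) hXY,
    div_pos (by linarith) hXY, ?_, Prod.ext ?_ ?_⟩
  · field_simp; ring
  · simp only [Prod.fst_add, Prod.smul_fst, smul_eq_mul]
    field_simp; ring
  · simp only [Prod.snd_add, Prod.smul_snd, smul_eq_mul]
    rw [hX2, hY2, hz2]
    field_simp; ring

/-- No chord crosses a side of a triangular face. -/
lemma side_block {n i j k l : ℕ} {X Y W z : ℝ × ℝ} (hdet : det X W Y ≠ 0)
    (hD : Disjoint (oTri X W Y) (Dn s n)) (hX : ln s i j X = 0) (hY : ln s i j Y = 0)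
    (hk : k < n) (hl : l < n) (hkl : k ≠ l) (hz : z ∈ openSegment ℝ (Q s k) (Q s l))
    (hzij : ln s i j z = 0) (hprod : ln s i j (Q s k) * ln s i j (Q s l) < 0)
    (h1 : X.1 < z.1) (h2 : z.1 < Y.1) : False := by
  refine no_cross hdet hD (seg_sub_Dn hk hl hkl) (in_between hX hY hzij h1 h2) hz ?_
  intro r hr
  have e1 := ln_sub (s := s) i j X Y _ r hr (Q s k)
  have e2 : Q s k + (Q s l - Q s k) = Q s l := by abel
  rw [e2, hX, hY, sub_zero, mul_zero, sub_eq_zero] at e1
  rw [e1] at hprod
  nlinarith [mul_self_nonneg (ln s i j (Q s k))]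

/-- The triangle bounded by the chords `(0,d)`, `(b,d+1)`, `(b+1,n-1)`. -/
noncomputable def t0 (s : ℕ → ℝ) (n b d : ℕ) : Set (ℝ × ℝ) :=
  oTri (meet s 0 d b (d + 1)) (meet s 0 d (b + 1) (n - 1)) (meet s b (d + 1) (b + 1) (n - 1))

lemma six (h : Fast s) {n a b c d e f : ℕ} (hab : a < b) (hbc : b < c) (hcd : c < d)
    (hde : d < e) (hef : e < f) (hf : f < n) {X1 X2 X3 : ℝ × ℝ}
    (h1 : ln s a d X1 = 0) (h2 : ln s b e X1 = 0) (h3 : ln s a d X2 = 0) (h4 : ln s c f X2 = 0)
    (h5 : ln s b e X3 = 0) (h6 : ln s c f X3 = 0) (hdet : det X1 X2 X3 ≠ 0)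
    (hD : Disjoint (oTri X1 X2 X3) (Dn s n)) :
    1 ≤ b ∧ b + 2 ≤ d ∧ d + 3 ≤ n ∧ oTri X1 X2 X3 = t0 s n b d := by
  have hs := h.mono
  obtain ⟨x1, x1'⟩ := x_bounds h hab (hbc.trans hcd) hde h1 h2
  obtain ⟨x2, x2'⟩ := x_bounds h (hab.trans hbc) hcd (hde.trans hef) h3 h4
  obtain ⟨x3, x3'⟩ := x_bounds h hbc (hcd.trans hde) hef h5 h6
  have hdet' : det X1 X3 X2 ≠ 0 := by
    rw [det_swap]; exact neg_ne_zero.mpr hdet
  have hD' : Disjoint (oTri X1 X3 X2) (Dn s n) := by
    rw [oTri_swap]; exact hD
  have hbc1 := h.le hbc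
  -- `c = b + 1`
  have hc : c = b + 1 := by
    by_contra hne
    have hlt : b + 1 < c := by omega
    obtain ⟨z, hz1, hz2⟩ := cross_exists hs (a := a) (b := b + 1) (c := d) (d := f)
      (by omega) (by omega) (by omega)
    have l1 := ln_seg (openSegment_sub_segment hz1)
    have l2 := ln_seg (openSegment_sub_segment hz2)
    obtain ⟨y1, y2⟩ := x_bounds h (by omega) (by omega) (by omega) l1 l2
    have := h.le hlt
    have := h.step b
    exact side_block hdet' hD' h1 h3 (by omega) (by omega) (by omega) hz2 l1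
      (cross_signs hs (by omega) (by omega) (by omega)).1 (by linarith) (by linarith)
  -- `f = n - 1`
  have hfn : f = n - 1 := by
    by_contra hne
    have hlt : f < n - 1 := by omega
    obtain ⟨z, hz1, hz2⟩ := cross_exists hs (a := a) (b := c) (c := d) (d := n - 1)
      (by omega) (by omega) (by omega)
    have l1 := ln_seg (openSegment_sub_segment hz1)
    have l2 := ln_seg (openSegment_sub_segment hz2)
    obtain ⟨y1, y2⟩ := x_bounds h (by omega) (by omega) (by omega) l1 l2
    have q1 := x_eq h3 h4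
    have q2 := x_eq l1 l2
    have q3 := hs hlt
    have q4 := hs (hcd)
    have q5 := hs (hab.trans hbc)
    have q6 := hs (hde.trans hef)
    have hz : z.1 < X2.1 := by
      by_contra hcon
      push Not at hcon
      have r1 : 0 < X2.1 - s c := by linarith
      have r2 : (X2.1 - s c) * (s c + s f - s a - s d) <
          (X2.1 - s c) * (s c + s (n - 1) - s a - s d) :=
        mul_lt_mul_of_pos_left (by linarith) r1
      have r3 : (X2.1 - s c) * (s c + s (n - 1) - s a - s d) ≤
          (z.1 - s c) * (s c + s (n - 1) - s a - s d) :=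
        mul_le_mul_of_nonneg_right (by linarith) (by linarith)
      linarith
    exact side_block hdet' hD' h1 h3 (by omega) (by omega) (by omega) hz2 l1
      (cross_signs hs (by omega) (by omega) (by omega)).1 (by linarith) hz
  -- `e = d + 1`
  have he : e = d + 1 := by
    by_contra hne
    have hlt : d + 1 < e := by omega
    obtain ⟨z, hz1, hz2⟩ := cross_exists hs (a := a) (b := b) (c := d) (d := d + 1)
      (by omega) (by omega) (by omega)
    have l1 := ln_seg (openSegment_sub_segment hz1)
    have l2 := ln_seg (openSegment_sub_segment hz2)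
    obtain ⟨y1, y2⟩ := x_bounds h (by omega) (by omega) (by omega) l1 l2
    have q1 := x_eq h1 h2
    have q2 := x_eq l1 l2
    have q3 := hs hlt
    have q4 := hs (show d < d + 1 by omega)
    have q5 := hs hab
    have hz : X1.1 < z.1 := by
      by_contra hcon
      push Not at hcon
      have r1 : 0 < X1.1 - s b := by linarith
      have r2 : (X1.1 - s b) * (s b + s (d + 1) - s a - s d) <
          (X1.1 - s b) * (s b + s e - s a - s d) :=
        mul_lt_mul_of_pos_left (by linarith) r1
      have r3 : (z.1 - s b) * (s b + s (d + 1) - s a - s d) ≤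
          (X1.1 - s b) * (s b + s (d + 1) - s a - s d) :=
        mul_le_mul_of_nonneg_right (by linarith) (by linarith)
      linarith
    exact side_block hdet' hD' h1 h3 (by omega) (by omega) (by omega) hz2 l1
      (cross_signs hs (by omega) (by omega) (by omega)).1 hz (by linarith)
  -- `a = 0`
  have ha : a = 0 := by
    by_contra hne
    have hlt : 0 < a := by omega
    obtain ⟨z, hz1, hz2⟩ := cross_exists hs (a := 0) (b := b) (c := d) (d := e)
      (by omega) (by omega) (by omega)
    have l1 := ln_seg (openSegment_sub_segment hz1)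
    have l2 := ln_seg (openSegment_sub_segment hz2)
    obtain ⟨y1, y2⟩ := x_bounds h (by omega) (by omega) (by omega) l1 l2
    have q1 := x_eq h1 h2
    have q2 := x_eq l1 l2
    have q3 := hs hlt
    have q4 := hs hde
    have q5 := hs hab
    have q6 := hs (hbc.trans hcd)
    have hz : X1.1 < z.1 := by
      by_contra hcon
      push Not at hcon
      -- `(z - s b) (u' + K) = u' m`, `(X - s b) (u + K) = u m`, `u < u'`
      have r1 : 0 < X1.1 - s b := by linarith
      have r2 : (z.1 - s b) * (s b + s e - s 0 - s d) ≤ (X1.1 - s b) * (s b + s e - s 0 - s d) :=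
        mul_le_mul_of_nonneg_right (by linarith) (by linarith)
      -- so `u' m ≤ (X - s b) (u' + K)`
      have r3 : (s b - s 0) * (s d - s b) ≤ (X1.1 - s b) * (s b + s e - s 0 - s d) := by linarith
      have r4 : (s a - s 0) * (s d - s b) ≤ (X1.1 - s b) * (s a - s 0) := by nlinarith
      have r5 : s d - s b ≤ X1.1 - s b := by
        by_contra hcon2
        push Not at hcon2
        have := mul_lt_mul_of_pos_left hcon2 (sub_pos.mpr q3)
        linarith
      have r6 : (s d - s b) * (s b + s e - s a - s d) ≤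
          (X1.1 - s b) * (s b + s e - s a - s d) :=
        mul_le_mul_of_nonneg_right r5 (by linarith)
      have r7 : (s d - s b) * (s b - s a) < (s d - s b) * (s b + s e - s a - s d) :=
        mul_lt_mul_of_pos_left (by linarith) (by linarith)
      linarith
    exact side_block hdet hD h2 h5 (by omega) (by omega) (by omega) hz1 l2
      (by
        have := (cross_signs hs (a := 0) (b := b) (c := d) (d := e) (by omega) (by omega)
          (by omega)).2
        exact this) hz (by linarith)
  subst ha hc he hfn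
  refine ⟨hab, by omega, by omega, ?_⟩
  unfold t0
  rw [← meet_eq hs h1 h2 (by omega) (by omega), ← meet_eq hs h3 h4 (by omega) (by omega),
    ← meet_eq hs h5 h6 (by omega) (by omega)]

/-- Two chords with a common point and four distinct endpoints interlace. -/
lemma interlace (hs : StrictMono s) {i j k l : ℕ} (hij : i < j) (hkl : k < l) {z : ℝ × ℝ}
    (h1 : z ∈ segment ℝ (Q s i) (Q s j)) (h2 : z ∈ segment ℝ (Q s k) (Q s l))
    (hik : i ≠ k) (hil : i ≠ l) (hjk : j ≠ k) (hjl : j ≠ l) :
    (i < k ∧ k < j ∧ j < l) ∨ (k < i ∧ i < l ∧ l < j) := by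
  have bd : ∀ i j : ℕ, i < j → z ∈ segment ℝ (Q s i) (Q s j) → s i ≤ z.1 ∧ z.1 ≤ s j := by
    rintro i j hij ⟨a, b, ha, hb, hab, rfl⟩
    have := hs hij
    simp only [Q, Prod.fst_add, Prod.smul_fst, smul_eq_mul]
    have : a = 1 - b := by linarith
    subst this
    constructor <;> nlinarith
  have b1 := bd i j hij h1
  have b2 := bd k l hkl h2
  have l1 := ln_seg h1
  have l2 := ln_seg h2
  unfold ln at l1 l2
  -- nested chords do not meet
  have nest : ∀ i j k l : ℕ, i < k → l < j → s k ≤ z.1 → z.1 ≤ s l →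
      z.2 - (s i + s j) * z.1 + s i * s j = 0 → z.2 - (s k + s l) * z.1 + s k * s l = 0 → False := by
    intro i j k l hik hlj k1 k2 e1 e2
    have p1 := hs hik
    have p2 := hs hlj
    -- `(z - s i) (s j - z) = (z - s k) (s l - z)`
    have e3 : (z.1 - s i) * (s j - z.1) = (z.1 - s k) * (s l - z.1) := by linarith
    have e4 : (z.1 - s k) * (s l - z.1) ≤ (z.1 - s k) * (s j - z.1) :=
      mul_le_mul_of_nonneg_left (by linarith) (by linarith)
    have e5 : (z.1 - s k) * (s j - z.1) < (z.1 - s i) * (s j - z.1) :=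
      mul_lt_mul_of_pos_right (by linarith) (by linarith)
    linarith
  have c1 : k < j := by
    by_contra hcon
    have : j < k := by omega
    have := hs this
    linarith
  have c2 : i < l := by
    by_contra hcon
    have : l < i := by omega
    have := hs this
    linarith
  rcases lt_or_gt_of_ne hik with h | h
  · left
    refine ⟨h, c1, ?_⟩
    by_contra hcon
    exact nest i j k l h (by omega) b2.1 b2.2 l1 l2
  · right
    refine ⟨h, c2, ?_⟩
    by_contra hcon
    exact nest k l i j h (by omega) b1.1 b1.2 l2 l1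

end Pool.Agent.J4H91.Drw
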