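import Pool.Agent.J4H91.Drw.Tri

/-!
# The sides of a triangular face are covered by the edges
-/

set_option autoImplicit false

namespace Pool.Agent.J4H91.Drw

open Filter Topology

lemma side_closure {A B C z : ℝ × ℝ} (hz : z ∈ segment ℝ A B) : z ∈ closure (oTri A B C) := by
  obtain ⟨p, q, hp, hq, hpq, rfl⟩ := hz
  set G : ℝ × ℝ := (1 / 3 : ℝ) • A + (1 / 3 : ℝ) • B + (1 / 3 : ℝ) • C with hG
  have hlim : Tendsto (fun k : ℕ => (p • A + q • B) + (1 / ((k : ℝ) + 1)) • (G - (p • A + q • B)))
      atTop (𝓝 ((p • A + q • B) + (0 : ℝ) • (G - (p • A + q • B)))) :=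
    tendsto_const_nhds.add (tendsto_one_div_add_atTop_nhds_zero_nat.smul_const _)
  rw [zero_smul, add_zero] at hlim
  refine mem_closure_of_tendsto hlim (Eventually.of_forall fun k => ?_)
  have hk : (0 : ℝ) < 1 / ((k : ℝ) + 1) := by positivity
  have hk1 : (1 : ℝ) / ((k : ℝ) + 1) ≤ 1 := by
    rw [div_le_one (by positivity)]
    have : (0 : ℝ) ≤ k := Nat.cast_nonneg k
    linarith
  generalize (1 : ℝ) / ((k : ℝ) + 1) = e at hk hk1
  refine ⟨(1 - e) * p + e / 3, (1 - e) * q + e / 3, e / 3, ?_, ?_, by positivity, ?_, ?_⟩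
  · have := mul_nonneg (sub_nonneg.mpr hk1) hp
    linarith
  · have := mul_nonneg (sub_nonneg.mpr hk1) hq
    linarith
  · have : (1 - e) * p + e / 3 + ((1 - e) * q + e / 3) + e / 3 = (1 - e) * (p + q) + e := by ring
    rw [this, hpq]; ring
  · rw [hG]
    ext
    · simp; ring
    · simp; ring

lemma side_not_mem {A B C z : ℝ × ℝ} (h : det A B C ≠ 0) (hz : z ∈ segment ℝ A B) :
    z ∉ oTri A B C := by
  obtain ⟨p, q, hp, hq, hpq, rfl⟩ := hz
  rintro ⟨a, b, c, ha, hb, hc, hs, heq⟩
  have h1 := congrArg Prod.fst heq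
  have h2 := congrArg Prod.snd heq
  simp at h1 h2
  have hp' : p = 1 - q := by linarith
  have ha' : a = 1 - b - c := by linarith
  subst hp' ha'
  have e1 : (q - b) * (B.1 - A.1) = c * (C.1 - A.1) := by linarith
  have e2 : (q - b) * (B.2 - A.2) = c * (C.2 - A.2) := by linarith
  have : c * det A B C = 0 := by
    unfold det
    have : c * ((B.1 - A.1) * (C.2 - A.2) - (B.2 - A.2) * (C.1 - A.1)) =
      (B.1 - A.1) * (c * (C.2 - A.2)) - (B.2 - A.2) * (c * (C.1 - A.1)) := by ring
    rw [this, ← e1, ← e2]; ring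
  rcases mul_eq_zero.mp this with h' | h'
  · exact hc.ne' h'
  · exact h h'

lemma component_closed {X : Type*} [TopologicalSpace X] {U : Set X} {x z : X} (hx : x ∈ U)
    (hz : z ∈ closure (connectedComponentIn U x)) (hzU : z ∈ U) :
    z ∈ connectedComponentIn U x := by
  have h1 : IsPreconnected (connectedComponentIn U x ∪ {z}) := by
    refine IsPreconnected.subset_closure isPreconnected_connectedComponentIn
      Set.subset_union_left ?_
    rintro y (hy | hy)
    · exact subset_closure hy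
    · rw [Set.mem_singleton_iff] at hy
      rw [hy]; exact hz
  have h2 : connectedComponentIn U x ∪ {z} ⊆ connectedComponentIn U x := by
    refine h1.subset_connectedComponentIn (Or.inl (mem_connectedComponentIn hx)) ?_
    rintro y (hy | hy)
    · exact connectedComponentIn_subset U x hy
    · rw [Set.mem_singleton_iff] at hy
      rw [hy]; exact hzU
  exact h2 (Or.inr rfl)

lemma side_subset {n : ℕ} {P : Fin n → ℝ × ℝ} {A B C : ℝ × ℝ} (h : det A B C ≠ 0)
    (hF : oTri A B C ∈ faces P) : segment ℝ A B ⊆ edgeUnion P := by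
  intro z hz
  by_contra hcon
  obtain ⟨-, x, hx, hFx⟩ := hF
  have h1 := side_closure (C := C) hz
  rw [hFx] at h1
  have h2 := component_closed hx h1 hcon
  rw [← hFx] at h2
  exact side_not_mem h hz h2

lemma face_disjoint {n : ℕ} {P : Fin n → ℝ × ℝ} {F : Set (ℝ × ℝ)} (hF : F ∈ faces P) :
    Disjoint F (edgeUnion P) := by
  obtain ⟨-, x, hx, hFx⟩ := hF
  rw [Set.disjoint_left]
  intro z hz hz2
  rw [hFx] at hz
  exact connectedComponentIn_subset _ _ hz hz2

end Pool.Agent.J4H91.Drw
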