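import Pool.Agent.J4H91.Drw.Defs

/-!
# Open triangles
-/

set_option autoImplicit false

namespace Pool.Agent.J4H91.Drw

/-- The open triangle with corners `A`, `B`, `C`. -/
def oTri (A B C : ℝ × ℝ) : Set (ℝ × ℝ) :=
  {z | ∃ a b c : ℝ, 0 < a ∧ 0 < b ∧ 0 < c ∧ a + b + c = 1 ∧ z = a • A + b • B + c • C}

lemma oTri_rot (A B C : ℝ × ℝ) : oTri A B C = oTri B C A := by
  ext z
  constructor
  · rintro ⟨a, b, c, ha, hb, hc, hs, rfl⟩
    exact ⟨b, c, a, hb, hc, ha, by linarith, by abel⟩
  · rintro ⟨b, c, a, hb, hc, ha, hs, rfl⟩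
    exact ⟨a, b, c, ha, hb, hc, by linarith, by abel⟩

lemma oTri_swap (A B C : ℝ × ℝ) : oTri A B C = oTri A C B := by
  ext z
  constructor
  · rintro ⟨a, b, c, ha, hb, hc, hs, rfl⟩
    exact ⟨a, c, b, ha, hc, hb, by linarith, by abel⟩
  · rintro ⟨a, c, b, ha, hc, hb, hs, rfl⟩
    exact ⟨a, b, c, ha, hb, hc, by linarith, by abel⟩

/-- The determinant of a triangle. -/
def det (A B C : ℝ × ℝ) : ℝ := (B.1 - A.1) * (C.2 - A.2) - (B.2 - A.2) * (C.1 - A.1)

lemma det_rot (A B C : ℝ × ℝ) : det A B C = det B C A := by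
  unfold det; ring

lemma det_swap (A B C : ℝ × ℝ) : det A B C = - det A C B := by
  unfold det; ring

lemma det_ne {A B C : ℝ × ℝ} (h : AffineIndependent ℝ ![A, B, C]) : det A B C ≠ 0 := by
  intro h0
  rw [affineIndependent_iff_linearIndependent_vsub ℝ _ (0 : Fin 3)] at h
  have h1 := (Fintype.linearIndependent_iff.mp h)
  -- weights
  have key : ∀ x y : ℝ, x • (B - A) + y • (C - A) = 0 → x = 0 ∧ y = 0 := by
    intro x y hxy
    have h2 := h1 (fun i => if (i : Fin 3) = 1 then x else y) (by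
      have : (Finset.univ : Finset {i : Fin 3 // i ≠ 0}) = {⟨1, by decide⟩, ⟨2, by decide⟩} := by
        decide
      rw [this, Finset.sum_insert (by decide), Finset.sum_singleton]
      simpa using hxy)
    have h3 := h2 ⟨1, by decide⟩
    have h4 := h2 ⟨2, by decide⟩
    simp at h3 h4
    exact ⟨h3, h4⟩
  unfold det at h0
  by_cases hB : B.1 - A.1 = 0 ∧ B.2 - A.2 = 0
  · have := key 1 0 (by
      ext
      · simp [hB.1]
      · simp [hB.2])
    exact one_ne_zero this.1
  · by_cases hB1 : B.1 - A.1 = 0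
    · have hB2 : B.2 - A.2 ≠ 0 := fun h => hB ⟨hB1, h⟩
      have hC1 : C.1 - A.1 = 0 := by
        rw [hB1] at h0
        have : (B.2 - A.2) * (C.1 - A.1) = 0 := by linarith
        rcases mul_eq_zero.mp this with h | h
        · exact absurd h hB2
        · exact h
      have := key (C.2 - A.2) (-(B.2 - A.2)) (by
        ext
        · simp [hB1, hC1]
        · simp; ring)
      exact hB2 (by linarith [this.2])
    · have := key (C.1 - A.1) (-(B.1 - A.1)) (by
        ext
        · simp; ring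
        · simp; linarith)
      exact hB1 (by linarith [this.2])

lemma interior_hull {A B C : ℝ × ℝ} (h : AffineIndependent ℝ ![A, B, C]) :
    interior (convexHull ℝ {A, B, C}) = oTri A B C := by
  have hspan : affineSpan ℝ (Set.range ![A, B, C]) = ⊤ := by
    rw [h.affineSpan_eq_top_iff_card_eq_finrank_add_one]
    simp [Module.finrank_prod]
  let b : AffineBasis (Fin 3) ℝ (ℝ × ℝ) := ⟨![A, B, C], h, hspan⟩
  have hb : ∀ i, b i = ![A, B, C] i := fun i => rfl
  have hr : Set.range b = {A, B, C} := by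
    ext x
    constructor
    · rintro ⟨i, rfl⟩
      fin_cases i <;> simp [hb]
    · intro hx
      rcases hx with h | h | h
      · exact ⟨0, by rw [hb, h]; rfl⟩
      · exact ⟨1, by rw [hb, h]; rfl⟩
      · exact ⟨2, by rw [hb, h]; rfl⟩
  rw [← hr, b.interior_convexHull]
  ext z
  constructor
  · intro hz
    have h1 := b.linear_combination_coord_eq_self z
    have h2 := b.sum_coord_apply_eq_one z
    rw [Fin.sum_univ_three] at h1 h2
    exact ⟨b.coord 0 z, b.coord 1 z, b.coord 2 z, hz 0, hz 1, hz 2, h2, h1.symm⟩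
  · rintro ⟨x, y, w, hx, hy, hw, hs, rfl⟩
    have h1 : x • A + y • B + w • C =
        Finset.univ.affineCombination ℝ b ![x, y, w] := by
      rw [Finset.affineCombination_eq_linear_combination _ _ _ (by
        rw [Fin.sum_univ_three]; simpa using hs)]
      rw [Fin.sum_univ_three]
      rfl
    intro i
    rw [h1, b.coord_apply_combination_of_mem (Finset.mem_univ i) (by
      rw [Fin.sum_univ_three]; simpa using hs)]
    fin_cases i
    · exact hx
    · exact hy
    · exact hw

/-- Coordinates with respect to two independent vectors. -/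
lemma solve2 {A B C : ℝ × ℝ} (h : det A B C ≠ 0) (v : ℝ × ℝ) :
    ∃ x y : ℝ, v = x • (B - A) + y • (C - A) := by
  refine ⟨(v.1 * (C.2 - A.2) - v.2 * (C.1 - A.1)) / det A B C,
    ((B.1 - A.1) * v.2 - (B.2 - A.2) * v.1) / det A B C, ?_⟩
  ext
  · simp only [Prod.fst_add, Prod.smul_fst, Prod.fst_sub, smul_eq_mul]
    field_simp
    unfold det
    ring
  · simp only [Prod.snd_add, Prod.smul_snd, Prod.snd_sub, smul_eq_mul]
    field_simp
    unfold det
    ring

/-- A segment crossing a side of an open triangle transversally meets the open triangle. -/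
lemma no_cross {A B C : ℝ × ℝ} (h : det A B C ≠ 0) {D : Set (ℝ × ℝ)}
    (hD : Disjoint (oTri A B C) D) {u w z : ℝ × ℝ} (huw : segment ℝ u w ⊆ D)
    (hz : z ∈ openSegment ℝ A C) (hz2 : z ∈ openSegment ℝ u w)
    (hpar : ∀ r : ℝ, w - u ≠ r • (C - A)) : False := by
  obtain ⟨p, s, hp, hs, hps, hz⟩ := hz
  obtain ⟨θ', θ, hθ', hθ, hθs, hz2⟩ := hz2
  obtain ⟨x, y, hxy⟩ := solve2 h (w - u)
  -- `w - u = -(x + y) A + x B + y C`
  have hx : x ≠ 0 := by
    intro hx0
    apply hpar y
    rw [hxy, hx0]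
    simp
  obtain ⟨δ, hδ, h1, h2, h3, h4⟩ : ∃ δ : ℝ, 0 < δ ∧ δ ≤ θ ∧ δ ≤ θ' ∧
      δ * |x + y| < p ∧ δ * |y| < s := by
    have e1 : 0 < p / (|x + y| + 1) := by positivity
    have e2 : 0 < s / (|y| + 1) := by positivity
    refine ⟨min (min θ θ') (min (p / (|x + y| + 1)) (s / (|y| + 1))),
      lt_min (lt_min hθ hθ') (lt_min e1 e2),
      (min_le_left _ _).trans (min_le_left _ _), (min_le_left _ _).trans (min_le_right _ _), ?_, ?_⟩
    · calc min (min θ θ') (min (p / (|x + y| + 1)) (s / (|y| + 1))) * |x + y|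
          ≤ (p / (|x + y| + 1)) * |x + y| :=
            mul_le_mul_of_nonneg_right ((min_le_right _ _).trans (min_le_left _ _)) (abs_nonneg _)
        _ < (p / (|x + y| + 1)) * (|x + y| + 1) := mul_lt_mul_of_pos_left (by linarith) e1
        _ = p := by field_simp
    · calc min (min θ θ') (min (p / (|x + y| + 1)) (s / (|y| + 1))) * |y|
          ≤ (s / (|y| + 1)) * |y| :=
            mul_le_mul_of_nonneg_right ((min_le_right _ _).trans (min_le_right _ _)) (abs_nonneg _)
        _ < (s / (|y| + 1)) * (|y| + 1) := mul_lt_mul_of_pos_left (by linarith) e2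
        _ = s := by field_simp
  -- the signed step
  obtain ⟨ε, hε, hεx⟩ : ∃ ε : ℝ, |ε| = δ ∧ 0 < ε * x := by
    rcases lt_or_gt_of_ne hx with h | h
    · exact ⟨-δ, by rw [abs_neg, abs_of_pos hδ], by nlinarith⟩
    · exact ⟨δ, abs_of_pos hδ, by positivity⟩
  have hε1 := abs_le.mp hε.le
  have a1 := abs_le.mp (show |ε * (x + y)| ≤ δ * |x + y| by rw [abs_mul, hε])
  have a2 := abs_le.mp (show |ε * y| ≤ δ * |y| by rw [abs_mul, hε])
  have hmem : z + ε • (w - u) ∈ oTri A B C := by
    refine ⟨p - ε * (x + y), ε * x, s + ε * y, by linarith, hεx, by linarith, by linarith, ?_⟩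
    rw [← hz, hxy]
    ext
    · simp; ring
    · simp; ring
  have hmem2 : z + ε • (w - u) ∈ segment ℝ u w := by
    refine ⟨θ' - ε, θ + ε, by linarith, by linarith, by linarith, ?_⟩
    rw [← hz2]
    ext
    · simp; ring
    · simp; ring
  exact Set.disjoint_left.mp hD hmem (huw hmem2)

end Pool.Agent.J4H91.Drw
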