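import Pool.Agent.J4H91.Drw.Par

/-!
# Triangular faces with a corner at a vertex
-/

set_option autoImplicit false

namespace Pool.Agent.J4H91.Drw

/-- The cyclic successor. -/
def nx (n v : ℕ) : ℕ := if v + 1 = n then 0 else v + 1

/-- The cyclic predecessor. -/
def pr (n v : ℕ) : ℕ := if v = 0 then n - 1 else v - 1

variable {s : ℕ → ℝ}

lemma nx_lt {n v : ℕ} (hv : v < n) : nx n v < n := by unfold nx; split_ifs <;> omega
lemma pr_lt {n v : ℕ} (hv : v < n) : pr n v < n := by unfold pr; split_ifs <;> omega
lemma nx_pr {n v : ℕ} (_hv : v < n) : nx n (pr n v) = v := by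
  unfold nx pr; split_ifs <;> omega
lemma pr_nx {n v : ℕ} (hv : v < n) : pr n (nx n v) = v := by
  unfold nx pr; split_ifs <;> first | omega | contradiction
lemma nx_ne {n v : ℕ} (hn : 2 ≤ n) : nx n v ≠ v := by unfold nx; split_ifs <;> omega
lemma pr_ne {n v : ℕ} (hn : 2 ≤ n) : pr n v ≠ v := by unfold pr; split_ifs <;> omega
lemma nx_ne_pr {n v : ℕ} (hn : 3 ≤ n) (_hv : v < n) : nx n v ≠ pr n v := by
  unfold nx pr; split_ifs <;> omega

/-- The product of signs at the two neighbours of `v` for a line through `v`. -/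
lemma sepsign (hs : StrictMono s) {n v x : ℕ} (hn : 4 ≤ n) (hv : v < n) (hx : x < n) (h1 : x ≠ v)
    (h2 : x ≠ pr n v) (h3 : x ≠ nx n v) :
    ln s v x (Q s (pr n v)) * ln s v x (Q s (nx n v)) < 0 := by
  rw [ln_Q, ln_Q]
  unfold pr nx at *
  have m : ∀ i j : ℕ, i < j → 0 < s j - s i := fun i j h => sub_pos.mpr (hs h)
  split_ifs at * with h4 h5 h6
  · omega
  · have a1 := m v (n - 1) (by omega)
    have a2 := m x (n - 1) (by omega)
    have a3 := m v (v + 1) (by omega)
    have a4 := m (v + 1) x (by omega)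
    have := mul_pos (mul_pos a1 a2) (mul_pos a3 a4)
    nlinarith
  · have a1 := m (v - 1) v (by omega)
    have a2 := m x (v - 1) (by omega)
    have a3 := m 0 v (by omega)
    have a4 := m 0 x (by omega)
    have := mul_pos (mul_pos a1 a2) (mul_pos a3 a4)
    nlinarith
  · have a1 := m (v - 1) v (by omega)
    have a3 := m v (v + 1) (by omega)
    rcases lt_or_gt_of_ne h2 with h | h
    · have a2 := m x (v - 1) (by omega)
      have a4 := m x (v + 1) (by omega)
      have := mul_pos (mul_pos a1 a2) (mul_pos a3 a4)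
      nlinarith
    · have a2 := m (v - 1) x (by omega)
      have a4 := m (v + 1) x (by omega)
      have := mul_pos (mul_pos a1 a2) (mul_pos a3 a4)
      nlinarith

/-- The line through the neighbours of `v` separates `v` from all other vertices. -/
lemma earsign (hs : StrictMono s) {n v : ℕ} (hn : 4 ≤ n) (hv : v < n) :
    ∃ σ : ℝ, 0 < σ * ln s (pr n v) (nx n v) (Q s v) ∧
      ∀ w < n, w ≠ v → w ≠ pr n v → w ≠ nx n v → σ * ln s (pr n v) (nx n v) (Q s w) < 0 := by
  have m : ∀ i j : ℕ, i < j → 0 < s j - s i := fun i j h => sub_pos.mpr (hs h)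
  simp only [ln_Q]
  unfold pr nx
  split_ifs with h4 h5 h6
  · omega
  · refine ⟨1, ?_, ?_⟩
    · have a1 := mul_pos (m v (n - 1) (by omega)) (m v (v + 1) (by omega))
      nlinarith
    · intro w hw h1 h2 h3
      have a1 := mul_pos (m w (n - 1) (by omega)) (m (v + 1) w (by omega))
      nlinarith
  · refine ⟨1, ?_, ?_⟩
    · have a1 := mul_pos (m (v - 1) v (by omega)) (m 0 v (by omega))
      nlinarith
    · intro w hw h1 h2 h3
      have a1 := mul_pos (m w (v - 1) (by omega)) (m 0 w (by omega))
      nlinarith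
  · refine ⟨-1, ?_, ?_⟩
    · have a1 := mul_pos (m (v - 1) v (by omega)) (m v (v + 1) (by omega))
      nlinarith
    · intro w hw h1 h2 h3
      rcases lt_or_gt_of_ne h2 with h | h
      · have a1 := mul_pos (m w (v - 1) (by omega)) (m w (v + 1) (by omega))
        nlinarith
      · have a1 := mul_pos (m (v - 1) w (by omega)) (m (v + 1) w (by omega))
        nlinarith

/-- Two segments whose endpoints are separated by the line of the other one cross. -/
lemma cross_pt {i j k l : ℕ} (h1 : ln s i j (Q s k) * ln s i j (Q s l) < 0)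
    (h2 : ln s k l (Q s i) * ln s k l (Q s j) < 0) :
    ∃ z, z ∈ openSegment ℝ (Q s i) (Q s j) ∧ z ∈ openSegment ℝ (Q s k) (Q s l) := by
  -- the point of the line `kl` on the line `ij`
  have sgn : ∀ a b : ℝ, a * b < 0 → 0 < b / (b - a) ∧ 0 < -a / (b - a) ∧
      b / (b - a) + -a / (b - a) = 1 ∧ b / (b - a) * a + -a / (b - a) * b = 0 := by
    intro a b hab
    have hba : b - a ≠ 0 := by
      intro h
      have : b = a := by linarith
      rw [this] at hab
      nlinarith [mul_self_nonneg a]
    rcases lt_or_gt_of_ne (show a ≠ 0 by rintro rfl; simp at hab) with ha | ha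
    · have hb : 0 < b := by nlinarith
      refine ⟨div_pos hb (by linarith), div_pos (by linarith) (by linarith), ?_, ?_⟩
      · field_simp; ring
      · field_simp; ring
    · have hb : b < 0 := by nlinarith
      refine ⟨div_pos_of_neg_of_neg hb (by linarith),
        div_pos_of_neg_of_neg (by linarith) (by linarith), ?_, ?_⟩
      · field_simp; ring
      · field_simp; ring
  obtain ⟨p1, p2, p3, p4⟩ := sgn _ _ h1
  obtain ⟨q1, q2, q3, q4⟩ := sgn _ _ h2
  set a := ln s i j (Q s k) with ha
  set b := ln s i j (Q s l) with hb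
  set c := ln s k l (Q s i) with hc
  set d := ln s k l (Q s j) with hd
  set z := (b / (b - a)) • Q s k + (-a / (b - a)) • Q s l with hz
  set z' := (d / (d - c)) • Q s i + (-c / (d - c)) • Q s j with hz'
  have e1 : ln s i j z = 0 := by rw [hz, ln_comb _ _ _ _ p3]; exact p4
  have e2 : ln s k l z' = 0 := by rw [hz', ln_comb _ _ _ _ q3]; exact q4
  have e3 : ln s k l z = 0 := ln_seg ⟨_, _, p1.le, p2.le, p3, rfl⟩
  have e4 : ln s i j z' = 0 := ln_seg ⟨_, _, q1.le, q2.le, q3, rfl⟩
  have hzz : z = z' := by
    -- the two lines are different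
    have hab : a ≠ b := by
      intro h
      rw [h] at h1
      nlinarith [mul_self_nonneg b]
    have hba : b - a = (s l - s k) * (s l + s k - s i - s j) := by
      rw [ha, hb, ln_Q, ln_Q]; ring
    have hsum : s l + s k - s i - s j ≠ 0 := by
      intro h
      rw [h, mul_zero] at hba
      exact hab (by linarith)
    unfold ln at e1 e2 e3 e4
    have f1 : (s l + s k - s i - s j) * (z.1 - z'.1) = 0 := by linarith
    have f2 : z.1 = z'.1 := by
      rcases mul_eq_zero.mp f1 with h | h
      · exact absurd h hsum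
      · linarith
    refine Prod.ext f2 ?_
    rw [f2] at e1
    linarith
  exact ⟨z, hzz ▸ ⟨_, _, q1, q2, q3, rfl⟩, ⟨_, _, p1, p2, p3, rfl⟩⟩

lemma openSegment_sub_segment {X Y z : ℝ × ℝ} (h : z ∈ openSegment ℝ X Y) : z ∈ segment ℝ X Y :=
  openSegment_subset_segment ℝ X Y h

lemma seg_sub_Dn {n i j : ℕ} (hi : i < n) (hj : j < n) (hij : i ≠ j) :
    segment ℝ (Q s i) (Q s j) ⊆ Dn s n := by
  intro z hz
  rcases lt_or_gt_of_ne hij with h | h
  · exact ⟨i, j, h, hj, hz⟩
  · rw [segment_symm] at hz
    exact ⟨j, i, h, hi, hz⟩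

/-- The side of a triangular face starting at the vertex `v` ends on the line through the
neighbours of `v`. -/
lemma near_vertex (hs : StrictMono s) {n v x : ℕ} (hn : 4 ≤ n) (hv : v < n) (hx : x < n)
    (hvx : v ≠ x) {B C : ℝ × ℝ} (hdet : det (Q s v) B C ≠ 0)
    (hD : Disjoint (oTri (Q s v) B C) (Dn s n)) (hC : C ∈ segment ℝ (Q s v) (Q s x)) {σ : ℝ}
    (hσ1 : 0 < σ * ln s (pr n v) (nx n v) (Q s v))
    (hσ2 : ∀ w < n, w ≠ v → w ≠ pr n v → w ≠ nx n v →
      σ * ln s (pr n v) (nx n v) (Q s w) < 0)
    (hle : σ * ln s (pr n v) (nx n v) C ≤ 0) : σ * ln s (pr n v) (nx n v) C = 0 := by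
  rcases hle.eq_or_lt with h | hlt
  · exact h
  exfalso
  obtain ⟨a, b, ha, hb, hab, hCeq⟩ := hC
  have hσ0 : σ ≠ 0 := by rintro rfl; simp at hσ1
  have g1 : σ * ln s (pr n v) (nx n v) C =
      a * (σ * ln s (pr n v) (nx n v) (Q s v)) + b * (σ * ln s (pr n v) (nx n v) (Q s x)) := by
    rw [← hCeq, ln_comb _ _ _ _ hab]; ring
  have gx : σ * ln s (pr n v) (nx n v) (Q s x) < 0 := by
    by_contra hcon
    push Not at hcon
    have := mul_nonneg ha hσ1.le
    have := mul_nonneg hb hcon
    linarith
  have hb0 : b ≠ 0 := by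
    rintro rfl
    have := mul_nonneg ha hσ1.le
    linarith
  have hxp : x ≠ pr n v := by
    rintro rfl
    rw [ln_Q] at gx
    simp at gx
  have hxn : x ≠ nx n v := by
    rintro rfl
    rw [ln_Q] at gx
    simp at gx
  have c1 : ln s v x (Q s (pr n v)) * ln s v x (Q s (nx n v)) < 0 :=
    sepsign hs hn hv hx hvx.symm hxp hxn
  have c2 : ln s (pr n v) (nx n v) (Q s v) * ln s (pr n v) (nx n v) (Q s x) < 0 := by
    have h1 : (σ * ln s (pr n v) (nx n v) (Q s v)) * (σ * ln s (pr n v) (nx n v) (Q s x)) < 0 :=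
      mul_neg_of_pos_of_neg hσ1 gx
    have h2 : 0 < σ * σ := mul_self_pos.mpr hσ0
    by_contra hcon
    push Not at hcon
    have := mul_nonneg h2.le hcon
    nlinarith
  obtain ⟨z, hz1, hz2⟩ := cross_pt c1 c2
  have gz : σ * ln s (pr n v) (nx n v) z = 0 := by
    rw [ln_seg (openSegment_sub_segment hz2), mul_zero]
  obtain ⟨a', b', ha', hb', hab', hzeq⟩ := hz1
  have g2 : σ * ln s (pr n v) (nx n v) z =
      a' * (σ * ln s (pr n v) (nx n v) (Q s v)) +
        b' * (σ * ln s (pr n v) (nx n v) (Q s x)) := by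
    rw [← hzeq, ln_comb _ _ _ _ hab']; ring
  set U := σ * ln s (pr n v) (nx n v) (Q s v) with hU
  set W := σ * ln s (pr n v) (nx n v) (Q s x) with hW
  have hbpos : 0 < b := lt_of_le_of_ne hb (Ne.symm hb0)
  have hlt2 : b' < b := by
    have h1 : a = 1 - b := by linarith
    have h2 : a' = 1 - b' := by linarith
    rw [h1] at g1
    rw [h2, gz] at g2
    rw [g1] at hlt
    nlinarith
  have hzside : z ∈ openSegment ℝ (Q s v) C := by
    refine ⟨1 - b' / b, b' / b, ?_, by positivity, by ring, ?_⟩
    · rw [sub_pos, div_lt_one hbpos]; exact hlt2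
    · rw [← hzeq, ← hCeq]
      have h1 : a = 1 - b := by linarith
      have h2 : a' = 1 - b' := by linarith
      rw [h1, h2]
      ext
      · simp; field_simp; ring
      · simp; field_simp; ring
  refine no_cross hdet hD (seg_sub_Dn (pr_lt hv) (nx_lt hv)
    (nx_ne_pr (by omega) hv).symm) hzside hz2 ?_
  intro r hr
  have h1 := ln_sub (s := s) v x (Q s v) C _ r hr (Q s (pr n v))
  have h2 : Q s (pr n v) + (Q s (nx n v) - Q s (pr n v)) = Q s (nx n v) := by abel
  have h3 : ln s v x C = 0 := ln_seg ⟨a, b, ha, hb, hab, hCeq⟩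
  have h4 : ln s v x (Q s v) = 0 := by rw [ln_Q]; ring
  rw [h2, h3, h4, sub_zero, mul_zero, sub_eq_zero] at h1
  rw [h1] at c1
  nlinarith [mul_self_nonneg (ln s v x (Q s (pr n v)))]

/-- A vertex in the sector between two nonadjacent directions from `v`. -/
lemma between (hs : StrictMono s) {n v x y : ℕ} (hn : 4 ≤ n) (hv : v < n) (hx : x < n) (hy : y < n)
    (hvx : v ≠ x) (hvy : v ≠ y) (hxy : x < y) (h1 : y ≠ nx n x) (h2 : x ≠ nx n y) :
    ∃ w < n, w ≠ v ∧ w ≠ pr n v ∧ w ≠ nx n v ∧ ∃ α β : ℝ, 0 < α ∧ 0 < β ∧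
      s w - s v = α * (s x - s v) + β * (s y - s v) ∧
      s w ^ 2 - s v ^ 2 = α * (s x ^ 2 - s v ^ 2) + β * (s y ^ 2 - s v ^ 2) := by
  have m : ∀ i j : ℕ, i < j → 0 < s j - s i := fun i j h => sub_pos.mpr (hs h)
  have ne : ∀ i j : ℕ, i ≠ j → s i - s j ≠ 0 := fun i j h => sub_ne_zero.mpr
    (fun e => h (hs.injective e))
  have key : ∀ w, w < n → w ≠ v → w ≠ pr n v → w ≠ nx n v →
      0 < ((s w - s v) * (s w - s y)) / ((s x - s v) * (s x - s y)) →
      0 < ((s w - s v) * (s w - s x)) / ((s y - s v) * (s y - s x)) →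
      ∃ w < n, w ≠ v ∧ w ≠ pr n v ∧ w ≠ nx n v ∧ ∃ α β : ℝ, 0 < α ∧ 0 < β ∧
      s w - s v = α * (s x - s v) + β * (s y - s v) ∧
      s w ^ 2 - s v ^ 2 = α * (s x ^ 2 - s v ^ 2) + β * (s y ^ 2 - s v ^ 2) := by
    intro w hw k1 k2 k3 k4 k5
    have e1 := ne x v hvx.symm
    have e2 := ne y v hvy.symm
    have e3 := ne x y hxy.ne
    have e4 := ne y x hxy.ne'
    refine ⟨w, hw, k1, k2, k3, _, _, k4, k5, ?_, ?_⟩
    · have e5 : s x - s y = -(s y - s x) := by ring
      rw [e5]
      field_simp
      ring
    · have e5 : s x - s y = -(s y - s x) := by ring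
      rw [e5]
      field_simp
      ring
  rcases lt_trichotomy v x with h | h | h
  · -- v < x < y
    have hxn : nx n x = x + 1 := by unfold nx; split_ifs <;> omega
    have hw : x + 1 < y := by omega
    refine key (x + 1) (by omega) (by omega) (by unfold pr; split_ifs <;> omega)
      (by unfold nx; split_ifs <;> omega) ?_ ?_
    · have a1 := m v (x + 1) (by omega)
      have a2 := m (x + 1) y (by omega)
      have a3 := m v x (by omega)
      have a4 := m x y (by omega)
      exact div_pos_of_neg_of_neg (by nlinarith) (by nlinarith)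
    · have a1 := m v (x + 1) (by omega)
      have a2 := m x (x + 1) (by omega)
      have a3 := m v y (by omega)
      have a4 := m x y (by omega)
      positivity
  · exact absurd h hvx
  · rcases lt_trichotomy v y with h' | h' | h'
    · -- x < v < y
      by_cases hyn : y + 1 = n
      · have : nx n y = 0 := by unfold nx; rw [if_pos hyn]
        refine key (x - 1) (by omega) (by omega) (by unfold pr; split_ifs <;> omega)
          (by unfold nx; split_ifs <;> omega) ?_ ?_
        · have a1 := m (x - 1) v (by omega)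
          have a2 := m (x - 1) y (by omega)
          have a3 := m x v (by omega)
          have a4 := m x y (by omega)
          exact div_pos (by nlinarith) (by nlinarith)
        · have a1 := m (x - 1) v (by omega)
          have a2 := m (x - 1) x (by omega)
          have a3 := m v y (by omega)
          have a4 := m x y (by omega)
          exact div_pos (by nlinarith) (by nlinarith)
      · refine key (y + 1) (by omega) (by omega) (by unfold pr; split_ifs <;> omega)
          (by unfold nx; split_ifs <;> omega) ?_ ?_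
        · have a1 := m v (y + 1) (by omega)
          have a2 := m y (y + 1) (by omega)
          have a3 := m x v (by omega)
          have a4 := m x y (by omega)
          exact div_pos (by nlinarith) (by nlinarith)
        · have a1 := m v (y + 1) (by omega)
          have a2 := m x (y + 1) (by omega)
          have a3 := m v y (by omega)
          have a4 := m x y (by omega)
          exact div_pos (by nlinarith) (by nlinarith)
    · exact absurd h' hvy
    · -- x < y < v
      have hxn : nx n x = x + 1 := by unfold nx; split_ifs <;> omega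
      have hw : x + 1 < y := by omega
      refine key (x + 1) (by omega) (by omega) (by unfold pr; split_ifs <;> omega)
        (by unfold nx; split_ifs <;> omega) ?_ ?_
      · have a1 := m (x + 1) v (by omega)
        have a2 := m (x + 1) y (by omega)
        have a3 := m x v (by omega)
        have a4 := m x y (by omega)
        exact div_pos (by nlinarith) (by nlinarith)
      · have a1 := m (x + 1) v (by omega)
        have a2 := m x (x + 1) (by omega)
        have a3 := m y v (by omega)
        have a4 := m x y (by omega)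
        exact div_pos_of_neg_of_neg (by nlinarith) (by nlinarith)

end Pool.Agent.J4H91.Drw
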